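import Pool.Agent.Q205.LV.Stm

/-! LVALG. -/

set_option autoImplicit false

namespace Pool.Agent.Q205.LV

variable {y : ℕ → ℝ → ℝ}

theorem Pol.congr : ∀ {r d : ℕ} {f g : ℝ → ℝ}, (∀ x, 0 < x → f x = g x) → Pol y r d f →
    Pol y r d g
  | 0, d, f, g, h, hf => by
    obtain ⟨p, hp, hp2⟩ := hf
    exact ⟨p, hp, fun x hx => by rw [← h x hx, hp2 x hx]⟩
  | r + 1, d, f, g, h, hf => by
    obtain ⟨a, ha, ha2⟩ := hf
    exact ⟨a, ha, fun x hx => by rw [← h x hx, ha2 x hx]⟩

theorem Pol.const : ∀ (r d : ℕ) (c : ℝ), Pol y r d (fun _ => c)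
  | 0, d, c => ⟨Polynomial.C c, by simp, fun x _ => by simp⟩
  | r + 1, d, c => by
    refine ⟨fun j => if j = 0 then fun _ => c else fun _ => 0, fun j _ => ?_, fun x _ => ?_⟩
    · by_cases hj : j = 0
      · simp only [hj, if_true]
        exact Pol.const r d c
      · simp only [hj, if_false]
        exact Pol.const r d 0
    · rw [Finset.sum_eq_single 0]
      · simp
      · intro j _ hj
        simp [hj]
      · intro h
        simp at h

theorem Pol.mono : ∀ {r d e : ℕ} {f : ℝ → ℝ}, d ≤ e → Pol y r d f → Pol y r e f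
  | 0, d, e, f, h, hf => by
    obtain ⟨p, hp, hp2⟩ := hf
    exact ⟨p, hp.trans h, hp2⟩
  | r + 1, d, e, f, h, hf => by
    obtain ⟨a, ha, ha2⟩ := hf
    refine ⟨fun j => if j ≤ d then a j else fun _ => 0, fun j _ => ?_, fun x hx => ?_⟩
    · by_cases hj : j ≤ d
      · simp only [hj, if_true]
        exact Pol.mono h (ha j hj)
      · simp only [hj, if_false]
        exact Pol.const r e 0
    · rw [ha2 x hx]
      have h1 : Finset.range (d + 1) ⊆ Finset.range (e + 1) := by
        intro j hj
        rw [Finset.mem_range] at hj ⊢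
        omega
      rw [← Finset.sum_subset h1]
      · refine Finset.sum_congr rfl fun j hj => ?_
        rw [Finset.mem_range] at hj
        have : j ≤ d := by omega
        simp only [this, if_true]
      · intro j _ hj
        rw [Finset.mem_range] at hj
        have : ¬ j ≤ d := by omega
        simp only [this, if_false, zero_mul]

theorem Pol.up1 {r d : ℕ} {f : ℝ → ℝ} (hf : Pol y r d f) : Pol y (r + 1) d f := by
  refine ⟨fun j => if j = 0 then f else fun _ => 0, fun j _ => ?_, fun x _ => ?_⟩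
  · by_cases hj : j = 0
    · simp only [hj, if_true]
      exact hf
    · simp only [hj, if_false]
      exact Pol.const r d 0
  · rw [Finset.sum_eq_single 0]
    · simp
    · intro j _ hj
      simp [hj]
    · intro h
      simp at h

theorem Pol.up {r s d : ℕ} {f : ℝ → ℝ} (h : r ≤ s) (hf : Pol y r d f) : Pol y s d f := by
  induction s, h using Nat.le_induction with
  | base => exact hf
  | succ s _ ih => exact ih.up1

theorem Pol.X : ∀ r : ℕ, Pol y r 1 (fun x => x) := by
  intro r
  exact Pol.up (Nat.zero_le r) ⟨Polynomial.X, by simp, fun x _ => by simp⟩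

theorem Pol.var (r : ℕ) : Pol y (r + 1) 1 (y r) := by
  refine ⟨fun j => if j = 1 then fun _ => 1 else fun _ => 0, fun j _ => ?_, fun x _ => ?_⟩
  · by_cases hj : j = 1
    · simp only [hj, if_true]
      exact Pol.const r 1 1
    · simp only [hj, if_false]
      exact Pol.const r 1 0
  · simp [Finset.sum_range_succ]

theorem Pol.add : ∀ {r d : ℕ} {f g : ℝ → ℝ}, Pol y r d f → Pol y r d g →
    Pol y r d (fun x => f x + g x)
  | 0, d, f, g, hf, hg => by
    obtain ⟨p, hp, hp2⟩ := hf
    obtain ⟨q, hq, hq2⟩ := hg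
    refine ⟨p + q, (Polynomial.natDegree_add_le _ _).trans (max_le hp hq), fun x hx => ?_⟩
    simp only [Polynomial.eval_add, hp2 x hx, hq2 x hx]
  | r + 1, d, f, g, hf, hg => by
    obtain ⟨a, ha, ha2⟩ := hf
    obtain ⟨b, hb, hb2⟩ := hg
    refine ⟨fun j x => a j x + b j x, fun j hj => Pol.add (ha j hj) (hb j hj), fun x hx => ?_⟩
    simp only [add_mul, Finset.sum_add_distrib]
    rw [ha2 x hx, hb2 x hx]

theorem Pol.sum {ι : Type*} (s : Finset ι) {r d : ℕ} {f : ι → ℝ → ℝ}
    (h : ∀ i ∈ s, Pol y r d (f i)) : Pol y r d (fun x => ∑ i ∈ s, f i x) := by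
  classical
  induction s using Finset.induction_on with
  | empty => exact (Pol.const r d 0).congr fun x _ => by simp
  | insert i s hi ih =>
    refine ((h i (Finset.mem_insert_self i s)).add
      (ih fun j hj => h j (Finset.mem_insert_of_mem hj))).congr fun x _ => ?_
    rw [Finset.sum_insert hi]

theorem Pol.mul : ∀ {r d e : ℕ} {f g : ℝ → ℝ}, Pol y r d f → Pol y r e g →
    Pol y r (d + e) (fun x => f x * g x)
  | 0, d, e, f, g, hf, hg => by
    obtain ⟨p, hp, hp2⟩ := hf
    obtain ⟨q, hq, hq2⟩ := hg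
    refine ⟨p * q, Polynomial.natDegree_mul_le.trans (add_le_add hp hq), fun x hx => ?_⟩
    simp only [Polynomial.eval_mul, hp2 x hx, hq2 x hx]
  | r + 1, d, e, f, g, hf, hg => by
    obtain ⟨a, ha, ha2⟩ := hf
    obtain ⟨b, hb, hb2⟩ := hg
    refine ⟨fun k x => ∑ i ∈ (Finset.range (d + 1) ×ˢ Finset.range (e + 1)).filter
      (fun i => i.1 + i.2 = k), a i.1 x * b i.2 x, fun k _ => ?_, fun x hx => ?_⟩
    · apply Pol.sum
      intro i hi
      rw [Finset.mem_filter, Finset.mem_product, Finset.mem_range, Finset.mem_range] at hi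
      exact Pol.mul (ha i.1 (by omega)) (hb i.2 (by omega))
    · simp only
      rw [ha2 x hx, hb2 x hx, Finset.sum_mul_sum, ← Finset.sum_product',
        ← Finset.sum_fiberwise_of_maps_to (s := Finset.range (d + 1) ×ˢ Finset.range (e + 1))
          (t := Finset.range (d + e + 1)) (g := fun i => i.1 + i.2) (by
            intro i hi
            rw [Finset.mem_product, Finset.mem_range, Finset.mem_range] at hi
            rw [Finset.mem_range]
            omega)]
      refine Finset.sum_congr rfl fun k _ => ?_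
      rw [Finset.sum_mul]
      refine Finset.sum_congr rfl fun i hi => ?_
      rw [Finset.mem_filter] at hi
      rw [← hi.2, pow_add]
      ring

theorem Chn.mono {r s : ℕ} (h : r ≤ s) (hc : Chn y s) : Chn y r := fun i hi =>
  hc i (lt_of_lt_of_le hi h)

theorem Pol.analytic : ∀ {r d : ℕ} {f : ℝ → ℝ}, Chn y r → Pol y r d f →
    AnalyticOnNhd ℝ f (Set.Ioi 0)
  | 0, d, f, _, hf => by
    obtain ⟨p, _, hp2⟩ := hf
    refine AnalyticOnNhd.congr isOpen_Ioi (f := fun x => p.eval x) ?_ ?_
    · exact (AnalyticOnNhd.eval_polynomial p).mono (Set.subset_univ _)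
    · intro x hx
      exact (hp2 x hx).symm
  | r + 1, d, f, hc, hf => by
    obtain ⟨a, ha, ha2⟩ := hf
    refine AnalyticOnNhd.congr isOpen_Ioi
      (f := fun x => ∑ j ∈ Finset.range (d + 1), a j x * y r x ^ j) ?_ ?_
    · apply Finset.analyticOnNhd_fun_sum
      intro j hj
      rw [Finset.mem_range] at hj
      exact (Pol.analytic (Chn.mono (Nat.le_succ r) hc) (ha j (by omega))).mul
        ((hc r (Nat.lt_succ_self r)).1.pow j)
    · intro x hx
      exact (ha2 x hx).symm

theorem alg : ALGStm := fun _ =>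
  ⟨fun _ _ _ _ h hf => hf.mono h, fun _ _ _ _ h hf => hf.up h, fun _ _ _ _ h hf => hf.congr h,
    fun r d c => Pol.const r d c, fun r => Pol.X r, fun r => Pol.var r,
    fun _ _ _ _ hf hg => hf.add hg, fun _ _ _ _ _ hf hg => hf.mul hg,
    fun _ _ _ hc hf => hf.analytic hc⟩

end Pool.Agent.Q205.LV
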