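import Pool.Agent.Q205.LV.Stm

/-! LVCPY. -/

set_option autoImplicit false

namespace Pool.Agent.Q205.LV

theorem cpy : CPYStm := by
  intro D val c hD hc hDc hinj
  classical
  have hinf : {a | D a}.Infinite := by
    have h1 : Function.Injective c := by
      intro k l h
      have h2 := (hDc k).2
      rw [h, (hDc l).2] at h2
      exact h2.symm
    refine (Set.infinite_range_of_injective h1).mono ?_
    rintro _ ⟨k, rfl⟩
    exact (hDc k).1
  have hcv : ∀ a, D a → c (val a) = a := fun a ha => hinj _ _ (hDc _).1 ha (hDc _).2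
  -- counting is primitive recursive
  have hcount : Primrec fun a : ℕ => Nat.count D a := by
    have hstep : Primrec₂ fun (_ : ℕ) (z : ℕ × ℕ) => if D z.1 then z.2 + 1 else z.2 := by
      refine Primrec.ite (c := fun x : ℕ × (ℕ × ℕ) => D x.2.1) ?_ ?_ ?_
      · exact hD.comp (Primrec.fst.comp Primrec.snd)
      · exact Primrec.succ.comp (Primrec.snd.comp Primrec.snd)
      · exact Primrec.snd.comp Primrec.snd
    refine (Primrec.nat_rec' (f := fun a : ℕ => a) (g := fun _ => 0)
      (h := fun _ z => if D z.1 then z.2 + 1 else z.2) Primrec.id (Primrec.const 0)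
        hstep).of_eq fun a => ?_
    induction a with
    | zero => simp
    | succ a ih =>
      rw [Nat.count_succ, ← ih]
      simp only
      split_ifs <;> rfl
  -- a bound for the n-th element
  have hM : ∀ n, Nat.nth D n ≤ Nat.rec (c 0) (fun k z => z + c (k + 1)) n := by
    intro n
    have hb : ∀ n, ∀ k ≤ n, c k ≤ (Nat.rec (c 0) (fun k z => z + c (k + 1)) n : ℕ) := by
      intro n
      induction n with
      | zero =>
        intro k hk
        rw [Nat.le_zero.1 hk]
        exact le_refl _
      | succ n ih =>
        intro k hk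
        rcases Nat.lt_or_ge k (n + 1) with h | h
        · exact (ih k (by omega)).trans (Nat.le_add_right _ _)
        · rw [show k = n + 1 by omega]
          exact Nat.le_add_left _ _
    obtain ⟨M, hMd⟩ : ∃ M : ℕ, M = Nat.rec (c 0) (fun k z => z + c (k + 1)) n := ⟨_, rfl⟩
    rw [← hMd]
    have h1 : n < Nat.count D (M + 1) := by
      rw [Nat.count_eq_card_filter_range]
      have h2 : ((Finset.range (n + 1)).image c).card = n + 1 := by
        rw [Finset.card_image_of_injOn, Finset.card_range]
        intro k _ l _ h
        have h2 := (hDc k).2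
        rw [h, (hDc l).2] at h2
        exact h2.symm
      have h3 : (Finset.range (n + 1)).image c ⊆ (Finset.range (M + 1)).filter D := by
        intro a ha
        rw [Finset.mem_image] at ha
        obtain ⟨k, hk, rfl⟩ := ha
        rw [Finset.mem_range] at hk
        rw [Finset.mem_filter, Finset.mem_range]
        have := hb n k (by omega)
        rw [← hMd] at this
        exact ⟨by omega, (hDc k).1⟩
      have h4 := Finset.card_le_card h3
      rw [h2] at h4
      exact lt_of_lt_of_le (Nat.lt_succ_self n) (by convert h4)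
    have := Nat.nth_lt_of_lt_count h1
    omega
  have hMp : Primrec fun n : ℕ => (Nat.rec (c 0) (fun k z => z + c (k + 1)) n : ℕ) := by
    have hstep : Primrec₂ fun (_ : ℕ) (z : ℕ × ℕ) => z.2 + c (z.1 + 1) :=
      Primrec.nat_add.comp (Primrec.snd.comp Primrec.snd)
        (hc.comp (Primrec.succ.comp (Primrec.fst.comp Primrec.snd)))
    exact Primrec.nat_rec' (f := fun a : ℕ => a) (g := fun _ => c 0)
      (h := fun _ z => z.2 + c (z.1 + 1)) Primrec.id (Primrec.const _) hstep
  have hnth : Primrec fun n : ℕ => Nat.nth D n := by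
    have hrel : PrimrecRel fun n a : ℕ => D a ∧ Nat.count D a = n :=
      PrimrecPred.and (hD.comp Primrec.snd) (Primrec.eq.comp (hcount.comp Primrec.snd)
        Primrec.fst)
    refine (Primrec.nat_findGreatest hMp hrel).of_eq fun n => ?_
    rw [Nat.findGreatest_eq_iff]
    refine ⟨hM n, fun _ => ⟨Nat.nth_mem_of_infinite hinf n, Nat.count_nth_of_infinite hinf n⟩, ?_⟩
    intro k hk _ hcon
    have h1 := Nat.nth_count hcon.1
    rw [hcon.2] at h1
    omega
  refine ⟨⟨fun k => Nat.count D (c k), fun n => val (Nat.nth D n), fun k => ?_, fun n => ?_⟩,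
    ?_, ?_⟩
  · simp only
    rw [Nat.nth_count (hDc k).1, (hDc k).2]
  · simp only
    rw [hcv _ (Nat.nth_mem_of_infinite hinf n), Nat.count_nth_of_infinite hinf n]
  · intro f F hF hfF
    refine (hcount.comp (hF.comp hnth)).of_eq fun n => ?_
    have h1 := Nat.nth_mem_of_infinite hinf n
    have h2 := hfF _ h1
    show Nat.count D (F (Nat.nth D n)) = Nat.count D (c (f (val (Nat.nth D n))))
    rw [← h2.2, hcv _ h2.1]
  · intro h
    refine ⟨fun a => val (Nat.nth D (Nat.count D a)), ?_, fun a ha => ?_⟩
    · exact h.comp hcount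
    · simp only
      rw [Nat.nth_count ha]

end Pool.Agent.Q205.LV
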