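import Mathlib

/-! Definitions of the project LV (Levitz's class is not a basis for punctual standardness,
MP_6adfe4_lc). -/

set_option autoImplicit false

namespace Pool.Agent.Q205.LV

theorem unp (c : ℕ) : (Nat.unpair (c / 4)).1 < c + 1 ∧ (Nat.unpair (c / 4)).2 < c + 1 := by
  have h1 := Nat.unpair_left_le (c / 4)
  have h2 := Nat.unpair_right_le (c / 4)
  omega

/-- The value at `x` of the exponential term with the code `c`: code `0` is the variable, the codes
`4 k + 1` are the constants, the codes `4 ⟨a, b⟩ + 2`, `4 ⟨a, b⟩ + 3`, `4 ⟨a, b⟩ + 4` are sum, product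
and power. -/
def ev (x : ℕ) : ℕ → ℕ
  | 0 => x
  | c + 1 =>
    have _ := (unp c).1
    have _ := (unp c).2
    if c % 4 = 0 then c / 4
    else if c % 4 = 1 then ev x (Nat.unpair (c / 4)).1 + ev x (Nat.unpair (c / 4)).2
    else if c % 4 = 2 then ev x (Nat.unpair (c / 4)).1 * ev x (Nat.unpair (c / 4)).2
    else ev x (Nat.unpair (c / 4)).1 ^ ev x (Nat.unpair (c / 4)).2

/-- The real function given by the term with the code `c`. -/
noncomputable def rv (x : ℝ) : ℕ → ℝ
  | 0 => x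
  | c + 1 =>
    have _ := (unp c).1
    have _ := (unp c).2
    if c % 4 = 0 then ((c / 4 : ℕ) : ℝ)
    else if c % 4 = 1 then rv x (Nat.unpair (c / 4)).1 + rv x (Nat.unpair (c / 4)).2
    else if c % 4 = 2 then rv x (Nat.unpair (c / 4)).1 * rv x (Nat.unpair (c / 4)).2
    else rv x (Nat.unpair (c / 4)).1 ^ rv x (Nat.unpair (c / 4)).2

/-- constants -/
def tC (k : ℕ) : ℕ := 4 * k + 1
/-- sums -/
def tA (a b : ℕ) : ℕ := 4 * Nat.pair a b + 2
/-- products -/
def tM (a b : ℕ) : ℕ := 4 * Nat.pair a b + 3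
/-- powers -/
def tP (a b : ℕ) : ℕ := 4 * Nat.pair a b + 4

theorem ev_zero (x : ℕ) : ev x 0 = x := by rw [ev]
theorem ev_tC (x k : ℕ) : ev x (tC k) = k := by
  rw [show tC k = 4 * k + 1 from rfl, ev]
  rw [if_pos (by omega)]
  omega
theorem ev_tA (x a b : ℕ) : ev x (tA a b) = ev x a + ev x b := by
  rw [show tA a b = (4 * Nat.pair a b + 1) + 1 from rfl, ev]
  rw [if_neg (by omega), if_pos (by omega),
    show (4 * Nat.pair a b + 1) / 4 = Nat.pair a b by omega, Nat.unpair_pair]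
theorem ev_tM (x a b : ℕ) : ev x (tM a b) = ev x a * ev x b := by
  rw [show tM a b = (4 * Nat.pair a b + 2) + 1 from rfl, ev]
  rw [if_neg (by omega), if_neg (by omega), if_pos (by omega),
    show (4 * Nat.pair a b + 2) / 4 = Nat.pair a b by omega, Nat.unpair_pair]
theorem ev_tP (x a b : ℕ) : ev x (tP a b) = ev x a ^ ev x b := by
  rw [show tP a b = (4 * Nat.pair a b + 3) + 1 from rfl, ev]
  rw [if_neg (by omega), if_neg (by omega), if_neg (by omega),
    show (4 * Nat.pair a b + 3) / 4 = Nat.pair a b by omega, Nat.unpair_pair]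

theorem rv_zero (x : ℝ) : rv x 0 = x := by rw [rv]
theorem rv_tC (x : ℝ) (k : ℕ) : rv x (tC k) = k := by
  rw [show tC k = 4 * k + 1 from rfl, rv]
  rw [if_pos (by omega), show 4 * k / 4 = k by omega]
theorem rv_tA (x : ℝ) (a b : ℕ) : rv x (tA a b) = rv x a + rv x b := by
  rw [show tA a b = (4 * Nat.pair a b + 1) + 1 from rfl, rv]
  rw [if_neg (by omega), if_pos (by omega),
    show (4 * Nat.pair a b + 1) / 4 = Nat.pair a b by omega, Nat.unpair_pair]
theorem rv_tM (x : ℝ) (a b : ℕ) : rv x (tM a b) = rv x a * rv x b := by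
  rw [show tM a b = (4 * Nat.pair a b + 2) + 1 from rfl, rv]
  rw [if_neg (by omega), if_neg (by omega), if_pos (by omega),
    show (4 * Nat.pair a b + 2) / 4 = Nat.pair a b by omega, Nat.unpair_pair]
theorem rv_tP (x : ℝ) (a b : ℕ) : rv x (tP a b) = rv x a ^ rv x b := by
  rw [show tP a b = (4 * Nat.pair a b + 3) + 1 from rfl, rv]
  rw [if_neg (by omega), if_neg (by omega), if_neg (by omega),
    show (4 * Nat.pair a b + 3) / 4 = Nat.pair a b by omega, Nat.unpair_pair]

/-- Induction on terms. -/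
theorem code_cases (c : ℕ) : c = 0 ∨ (∃ k, c = tC k) ∨ (∃ a b, a < c ∧ b < c ∧ a + b + 1 < c ∧
    (c = tA a b ∨ c = tM a b ∨ c = tP a b)) := by
  rcases c with _ | c
  · exact Or.inl rfl
  · right
    obtain ⟨p, hp⟩ : ∃ p, p = c / 4 := ⟨_, rfl⟩
    have h0 : c % 4 < 4 := Nat.mod_lt _ (by norm_num)
    have hpe : Nat.pair (Nat.unpair p).1 (Nat.unpair p).2 = p := Nat.pair_unpair p
    have hadd := Nat.add_le_pair (Nat.unpair p).1 (Nat.unpair p).2
    rw [hpe] at hadd
    by_cases h : c % 4 = 0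
    · exact Or.inl ⟨p, by unfold tC; omega⟩
    · right
      refine ⟨(Nat.unpair p).1, (Nat.unpair p).2, by omega, by omega, by omega, ?_⟩
      unfold tA tM tP
      rw [hpe]
      omega

/-- `Pol y r d f`: on the positive half line `f` is a polynomial in `x, y 0, …, y (r - 1)` of degree
at most `d` in each of these variables. -/
def Pol (y : ℕ → ℝ → ℝ) : ℕ → ℕ → (ℝ → ℝ) → Prop
  | 0, d, f => ∃ p : Polynomial ℝ, p.natDegree ≤ d ∧ ∀ x, 0 < x → f x = p.eval x
  | r + 1, d, f => ∃ a : ℕ → ℝ → ℝ, (∀ j ≤ d, Pol y r d (a j)) ∧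
      ∀ x, 0 < x → f x = ∑ j ∈ Finset.range (d + 1), a j x * y r x ^ j

/-- `y 0, …, y (r - 1)` is a chain of functions on the positive half line: each one is an
exponential, a primitive, or an inverse with respect to the functions before it. -/
def Chn (y : ℕ → ℝ → ℝ) (r : ℕ) : Prop :=
  ∀ i < r, AnalyticOnNhd ℝ (y i) (Set.Ioi 0) ∧ ∃ Q : ℝ → ℝ, Pol y i (4 ^ (i + 1)) Q ∧
    ((∀ x, 0 < x → 0 < y i x ∧ HasDerivAt (y i) (y i x * Q x) x) ∨
      (∀ x, 0 < x → HasDerivAt (y i) (Q x) x) ∨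
      (∀ x, 0 < x → 0 < Q x ∧ y i x * Q x = 1))

/-- `f` has at most `N` zeros on the positive half line. -/
def NZ (f : ℝ → ℝ) (N : ℕ) : Prop := ∀ S : Finset ℝ, (∀ x ∈ S, 0 < x ∧ f x = 0) → S.card ≤ N

/-- the degree after the elimination of one function -/
def Mb (r d : ℕ) : ℕ := 2 ^ d * (d + 2 * 4 ^ (r + 1)) + d * 4 ^ (r + 1)

/-- the bound for the number of zeros -/
def Zb : ℕ → ℕ → ℕ
  | 0, d => d
  | r + 1, d => (2 * d + 3) * (Zb r (Mb r d) + 1)

end Pool.Agent.Q205.LV
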