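import Pool.Agent.Q205.LV.Alg

/-! LVDER. -/

set_option autoImplicit false

namespace Pool.Agent.Q205.LV

variable {y : ℕ → ℝ → ℝ}

/-- the sharper bound -/
def Eb : ℕ → ℕ
  | 0 => 0
  | r + 1 => Eb r + 4 ^ (r + 1) + 1

theorem Eb_le (r : ℕ) : Eb r ≤ 4 ^ (r + 1) := by
  have h : ∀ r, 3 * Eb r + 4 ≤ 4 ^ (r + 1) + 3 * r := by
    intro r
    induction r with
    | zero => simp [Eb]
    | succ r ih =>
      have e : Eb (r + 1) = Eb r + 4 ^ (r + 1) + 1 := rfl
      rw [e, pow_succ 4 (r + 1)]
      omega
  have h2 : ∀ r : ℕ, r ≤ 4 ^ r := fun r => (Nat.lt_pow_self (by norm_num)).le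
  have h3 := h r
  have h4 := h2 r
  rw [pow_succ] at *
  omega

theorem der_aux : ∀ (r d : ℕ) (f : ℝ → ℝ), Chn y r → Pol y r d f →
    ∃ f' : ℝ → ℝ, Pol y r (d + Eb r) f' ∧ ∀ x, 0 < x → HasDerivAt f (f' x) x
  | 0, d, f, _, hf => by
    obtain ⟨p, hp, hp2⟩ := hf
    refine ⟨fun x => p.derivative.eval x, ⟨p.derivative, ?_, fun x _ => rfl⟩, fun x hx => ?_⟩
    · exact (Polynomial.natDegree_derivative_le p).trans (by simp [Eb]; omega)
    · refine (p.hasDerivAt x).congr_of_eventuallyEq ?_
      filter_upwards [lt_mem_nhds hx] with z hz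
      exact hp2 z hz
  | r + 1, d, f, hc, hf => by
    obtain ⟨a, ha, ha2⟩ := hf
    have hc' : Chn y r := Chn.mono (Nat.le_succ r) hc
    have hda : ∀ j : ℕ, ∃ a' : ℝ → ℝ, j ≤ d → Pol y r (d + Eb r) a' ∧
        ∀ x, 0 < x → HasDerivAt (a j) (a' x) x := by
      intro j
      by_cases hj : j ≤ d
      · obtain ⟨a', h1, h2⟩ := der_aux r d (a j) hc' (ha j hj)
        exact ⟨a', fun _ => ⟨h1, h2⟩⟩
      · exact ⟨a j, fun h => absurd h hj⟩
    choose a' ha' using hda
    obtain ⟨-, Q, hQ, hcase⟩ := hc r (Nat.lt_succ_self r)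
    have eE : Eb (r + 1) = Eb r + 4 ^ (r + 1) + 1 := rfl
    have eE1 : Eb r ≤ Eb (r + 1) := by rw [eE, add_assoc]; exact Nat.le_add_right _ _
    have eE2 : 4 ^ (r + 1) ≤ Eb (r + 1) := by rw [eE]; omega
    have eE3 : 1 ≤ Eb (r + 1) := by rw [eE]; exact Nat.le_add_left _ _
    have eE4 : 4 ^ (r + 1) + Eb r ≤ Eb (r + 1) := by rw [eE]; omega
    -- the derivative in terms of the derivative of `y r`
    have hder : ∀ y' : ℝ → ℝ, (∀ x, 0 < x → HasDerivAt (y r) (y' x) x) → ∀ x, 0 < x →
        HasDerivAt f (∑ j ∈ Finset.range (d + 1),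
          (a' j x * y r x ^ j + a j x * (j * y r x ^ (j - 1) * y' x))) x := by
      intro y' hy' x hx
      have h1 : HasDerivAt (fun x => ∑ j ∈ Finset.range (d + 1), a j x * y r x ^ j)
          (∑ j ∈ Finset.range (d + 1),
            (a' j x * y r x ^ j + a j x * (j * y r x ^ (j - 1) * y' x))) x := by
        apply HasDerivAt.fun_sum
        intro j hj
        rw [Finset.mem_range] at hj
        exact ((ha' j (by omega)).2 x hx).mul ((hy' x hx).pow j)
      refine h1.congr_of_eventuallyEq ?_
      filter_upwards [lt_mem_nhds hx] with z hz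
      exact ha2 z hz
    -- degrees
    have hA : ∀ j ≤ d, Pol y r (d + Eb (r + 1)) (a' j) := fun j hj =>
      (ha' j hj).1.mono (by omega)
    have hv : ∀ j ≤ d, Pol y (r + 1) (d + Eb (r + 1)) (fun x => a' j x * y r x ^ j) := by
      intro j hj
      refine ⟨fun i => if i = j then a' j else fun _ => 0, fun i _ => ?_, fun x _ => ?_⟩
      · by_cases hi : i = j
        · simp only [hi, if_true]
          exact hA j hj
        · simp only [hi, if_false]
          exact Pol.const _ _ 0
      · rw [Finset.sum_eq_single j]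
        · simp
        · intro i _ hi
          simp [hi]
        · intro h
          rw [Finset.mem_range] at h
          omega
    have hw : ∀ (b : ℝ → ℝ) (k : ℕ), Pol y r (d + Eb (r + 1)) b → k ≤ d + 1 →
        Pol y (r + 1) (d + Eb (r + 1)) (fun x => b x * y r x ^ k) := by
      intro b k hb hk
      refine ⟨fun i => if i = k then b else fun _ => 0, fun i _ => ?_, fun x _ => ?_⟩
      · by_cases hi : i = k
        · simp only [hi, if_true]
          exact hb
        · simp only [hi, if_false]
          exact Pol.const _ _ 0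
      · rw [Finset.sum_eq_single k]
        · simp
        · intro i _ hi
          simp [hi]
        · intro h
          rw [Finset.mem_range] at h
          omega
    have hjm : ∀ (j : ℕ), Pol y r 0 (fun _ => (j : ℝ)) := fun j => Pol.const r 0 _
    rcases hcase with h1 | h1 | h1
    · -- exponential type
      refine ⟨fun x => ∑ j ∈ Finset.range (d + 1),
        (a' j x * y r x ^ j + (a j x * Q x * j) * y r x ^ j), ?_, fun x hx => ?_⟩
      · apply Pol.sum
        intro j hj
        rw [Finset.mem_range] at hj
        refine (hv j (by omega)).add (hw _ j ?_ (by omega))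
        exact (((ha j (by omega)).mul hQ).mul (hjm j)).mono (by omega)
      · have h2 := hder (fun x => y r x * Q x) (fun x hx => (h1 x hx).2) x hx
        refine h2.congr_deriv (Finset.sum_congr rfl fun j _ => ?_)
        rcases j with _ | j
        · simp
        · rw [Nat.add_sub_cancel, pow_succ]
          ring
    · -- primitive type
      refine ⟨fun x => ∑ j ∈ Finset.range (d + 1),
        (a' j x * y r x ^ j + (a j x * Q x * j) * y r x ^ (j - 1)), ?_, fun x hx => ?_⟩
      · apply Pol.sum
        intro j hj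
        rw [Finset.mem_range] at hj
        refine (hv j (by omega)).add (hw _ (j - 1) ?_ (by omega))
        exact (((ha j (by omega)).mul hQ).mul (hjm j)).mono (by omega)
      · have h2 := hder Q (fun x hx => h1 x hx) x hx
        refine h2.congr_deriv (Finset.sum_congr rfl fun j _ => ?_)
        ring
    · -- inverse type
      obtain ⟨Q', hQ'1, hQ'2⟩ := der_aux r (4 ^ (r + 1)) Q hc' hQ
      have hy' : ∀ x, 0 < x → HasDerivAt (y r) (-(Q' x) * y r x ^ 2) x := by
        intro x hx
        have e : ∀ z, 0 < z → y r z = (Q z)⁻¹ := by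
          intro z hz
          have := h1 z hz
          exact eq_inv_of_mul_eq_one_left this.2
        have h2 := (hQ'2 x hx).inv (h1 x hx).1.ne'
        have h3 : HasDerivAt (y r) (-Q' x / Q x ^ 2) x := by
          refine h2.congr_of_eventuallyEq ?_
          filter_upwards [lt_mem_nhds hx] with z hz
          rw [e z hz]
          rfl
        refine h3.congr_deriv ?_
        rw [e x hx]
        have := (h1 x hx).1
        field_simp
      refine ⟨fun x => ∑ j ∈ Finset.range (d + 1),
        (a' j x * y r x ^ j + (a j x * Q' x * (-(j : ℝ))) * y r x ^ (j + 1)), ?_, fun x hx => ?_⟩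
      · apply Pol.sum
        intro j hj
        rw [Finset.mem_range] at hj
        refine (hv j (by omega)).add (hw _ (j + 1) ?_ (by omega))
        exact (((ha j (by omega)).mul hQ'1).mul (Pol.const r 0 (-(j : ℝ)))).mono (by omega)
      · have h2 := hder (fun x => -(Q' x) * y r x ^ 2) hy' x hx
        refine h2.congr_deriv (Finset.sum_congr rfl fun j _ => ?_)
        rcases j with _ | j
        · simp
        · rw [Nat.add_sub_cancel]
          ring

theorem der : DERStm := by
  intro y r d f hc hf
  obtain ⟨f', h1, h2⟩ := der_aux r d f hc hf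
  exact ⟨f', h1.mono (by have := Eb_le r; omega), h2⟩

end Pool.Agent.Q205.LV
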