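import Pool.Agent.Q205.EB.Basis

/-! Functions of the second Grzegorczyk class are primitive recursive. -/

set_option autoImplicit false

namespace Pool.Agent.Q205.LV

open Pool.Agent.Q205.EB

theorem primrec_tuple {α : Type*} [Primcodable α] {m : ℕ} {g : Fin m → α → ℕ}
    (h : ∀ i, Primrec (g i)) : Primrec fun a => fun i => g i a := by
  have h1 : Primrec fun a => List.Vector.ofFn fun i => g i a := Primrec.vector_ofFn h
  have h2 : Primrec fun v : List.Vector ℕ m => fun i => v.get i :=
    Primrec.fin_curry.2 (Primrec.vector_get.comp Primrec.fst Primrec.snd)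
  refine (h2.comp h1).of_eq fun a => ?_
  funext i
  simp

theorem primrec_coord {n : ℕ} (i : Fin n) : Primrec fun v : Fin n → ℕ => v i :=
  Primrec.fin_app.comp Primrec.id (Primrec.const i)

theorem e2_primrec {n : ℕ} {f : (Fin n → ℕ) → ℕ} (h : E2 f) : Primrec f := by
  induction h with
  | zero => exact Primrec.const 0
  | succ => exact Primrec.succ.comp (primrec_coord (0 : Fin 1))
  | proj i => exact primrec_coord i
  | add =>
    exact Primrec.nat_add.comp (primrec_coord (0 : Fin 2)) (primrec_coord (1 : Fin 2))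
  | mul =>
    exact Primrec.nat_mul.comp (primrec_coord (0 : Fin 2)) (primrec_coord (1 : Fin 2))
  | comp f g _ _ ihf ihg => exact ihf.comp (primrec_tuple ihg)
  | @prec n f g b _ _ _ _ ihf ihg _ =>
    have htail : Primrec fun v : Fin (n + 1) → ℕ => (Fin.tail v : Fin n → ℕ) :=
      primrec_tuple (g := fun (i : Fin n) (v : Fin (n + 1) → ℕ) => v i.succ) fun i =>
        primrec_coord i.succ
    have hstep : Primrec₂ fun (v : Fin (n + 1) → ℕ) (z : ℕ × ℕ) =>
        g (Fin.cons z.1 (Fin.cons z.2 (Fin.tail v))) := by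
      refine ihg.comp ((primrec_tuple (g := fun (i : Fin (n + 2)) (x : (Fin (n + 1) → ℕ) × (ℕ × ℕ)) =>
        (Fin.cons x.2.1 (Fin.cons x.2.2 (Fin.tail x.1)) : Fin (n + 2) → ℕ) i) fun i => ?_).of_eq
          fun x => rfl)
      refine Fin.cases ?_ (fun j => ?_) i
      · exact Primrec.fst.comp Primrec.snd
      · refine Fin.cases ?_ (fun k => ?_) j
        · exact Primrec.snd.comp Primrec.snd
        · exact (primrec_coord k).comp (htail.comp Primrec.fst)
    exact Primrec.nat_rec' (f := fun v : Fin (n + 1) → ℕ => v 0)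
      (g := fun v => f (Fin.tail v)) (h := fun v z => g (Fin.cons z.1 (Fin.cons z.2 (Fin.tail v))))
      (primrec_coord 0) (ihf.comp htail) hstep

end Pool.Agent.Q205.LV
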