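import Pool.Agent.Q205.LV.Stm

/-! LVGE. -/

set_option autoImplicit false

namespace Pool.Agent.Q205.LV

theorem ge : GEStm := by
  intro c
  induction c using Nat.strong_induction_on with
  | _ c ih =>
    rcases code_cases c with rfl | ⟨k, rfl⟩ | ⟨a, b, ha, hb, _, rfl | rfl | rfl⟩
    · right
      intro n _
      rw [ev_zero]
    · left
      intro n _
      rw [ev_tC, ev_tC]
    · rcases ih a ha with h1 | h1 <;> rcases ih b hb with h2 | h2
      · left
        intro n hn
        rw [ev_tA, ev_tA, h1 n hn, h2 n hn]
      · right
        intro n hn
        rw [ev_tA]
        have := h2 n hn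
        omega
      · right
        intro n hn
        rw [ev_tA]
        have := h1 n hn
        omega
      · right
        intro n hn
        rw [ev_tA]
        have := h1 n hn
        omega
    · rcases ih a ha with h1 | h1 <;> rcases ih b hb with h2 | h2
      · left
        intro n hn
        rw [ev_tM, ev_tM, h1 n hn, h2 n hn]
      · by_cases h0 : ev 1 a = 0
        · left
          intro n hn
          rw [ev_tM, ev_tM, h1 n hn, h0, zero_mul, zero_mul]
        · right
          intro n hn
          rw [ev_tM, h1 n hn]
          exact (h2 n hn).trans (Nat.le_mul_of_pos_left _ (by omega))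
      · by_cases h0 : ev 1 b = 0
        · left
          intro n hn
          rw [ev_tM, ev_tM, h2 n hn, h0, mul_zero, mul_zero]
        · right
          intro n hn
          rw [ev_tM, h2 n hn]
          exact (h1 n hn).trans (Nat.le_mul_of_pos_right _ (by omega))
      · right
        intro n hn
        rw [ev_tM]
        have := h2 n hn
        exact (h1 n hn).trans (Nat.le_mul_of_pos_right _ (by omega))
    · rcases ih a ha with h1 | h1 <;> rcases ih b hb with h2 | h2
      · left
        intro n hn
        rw [ev_tP, ev_tP, h1 n hn, h2 n hn]
      · -- constant base
        obtain ⟨k, hk⟩ : ∃ k, k = ev 1 a := ⟨_, rfl⟩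
        rw [← hk] at h1
        rcases k with _ | _ | k
        · left
          intro n hn
          have e1 := h2 n hn
          have e2 := h2 1 (le_refl 1)
          rw [ev_tP, ev_tP, h1 n hn, ← hk, zero_pow (by omega), zero_pow (by omega)]
        · left
          intro n hn
          rw [ev_tP, ev_tP, h1 n hn, ← hk]
          simp
        · right
          intro n hn
          rw [ev_tP, h1 n hn]
          calc n ≤ ev n b := h2 n hn
            _ ≤ (k + 1 + 1) ^ ev n b := (Nat.lt_pow_self (by omega)).le
      · -- constant exponent
        by_cases h0 : ev 1 b = 0
        · left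
          intro n hn
          rw [ev_tP, ev_tP, h2 n hn, h0, pow_zero, pow_zero]
        · right
          intro n hn
          rw [ev_tP, h2 n hn]
          exact (h1 n hn).trans (Nat.le_self_pow h0 _)
      · right
        intro n hn
        rw [ev_tP]
        have := h2 n hn
        exact (h1 n hn).trans (Nat.le_self_pow (by omega) _)

end Pool.Agent.Q205.LV
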