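import Pool.Agent.Q205.LV.Stm

/-! LVZPR and LVEV. -/

set_option autoImplicit false

namespace Pool.Agent.Q205.LV

theorem primrec_npow' : Primrec₂ fun a b : ℕ => a ^ b := Primrec₂.unpaired'.1 Nat.Primrec.pow

theorem prim_Mb : Primrec₂ Mb := by
  have h4 : Primrec fun x : ℕ × ℕ => 4 ^ (x.1 + 1) :=
    primrec_npow'.comp (Primrec.const 4) (Primrec.succ.comp Primrec.fst)
  exact Primrec.nat_add.comp (Primrec.nat_mul.comp (primrec_npow'.comp (Primrec.const 2)
    Primrec.snd) (Primrec.nat_add.comp Primrec.snd (Primrec.nat_mul.comp (Primrec.const 2) h4)))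
    (Primrec.nat_mul.comp Primrec.snd h4)

/-- one step of the computation of `Zb` -/
def stp (r : ℕ) (k : ℕ) (s : ℕ × ℕ × ℕ) : ℕ × ℕ × ℕ :=
  (Mb (r - 1 - k) s.1, s.2.1 * (2 * s.1 + 3), s.2.1 * (2 * s.1 + 3) + s.2.2)

theorem stp_inv (r d : ℕ) : ∀ k ≤ r, ∃ s : ℕ × ℕ × ℕ,
    (Nat.rec (d, 1, 0) (fun k s => stp r k s) k : ℕ × ℕ × ℕ) = s ∧
      Zb r d = s.2.1 * Zb (r - k) s.1 + s.2.2 := by
  intro k
  induction k with
  | zero => intro _; exact ⟨_, rfl, by simp⟩
  | succ k ih =>
    intro hk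
    obtain ⟨s, hs1, hs2⟩ := ih (by omega)
    refine ⟨stp r k s, by simp only [hs1], ?_⟩
    have e : r - k = (r - 1 - k) + 1 := by omega
    have e2 : r - (k + 1) = r - 1 - k := by omega
    rw [hs2, e, e2]
    have e3 : Zb ((r - 1 - k) + 1) s.1 = (2 * s.1 + 3) * (Zb (r - 1 - k) (Mb (r - 1 - k) s.1) + 1) :=
      rfl
    rw [e3]
    unfold stp
    simp only
    ring

theorem zpr : ZPRStm := by
  have hstep : Primrec₂ fun (x : ℕ × ℕ) (z : ℕ × (ℕ × ℕ × ℕ)) => stp x.1 z.1 z.2 := by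
    have r : Primrec fun y : (ℕ × ℕ) × (ℕ × (ℕ × ℕ × ℕ)) => y.1.1 := Primrec.fst.comp Primrec.fst
    have k : Primrec fun y : (ℕ × ℕ) × (ℕ × (ℕ × ℕ × ℕ)) => y.2.1 := Primrec.fst.comp Primrec.snd
    have s1 : Primrec fun y : (ℕ × ℕ) × (ℕ × (ℕ × ℕ × ℕ)) => y.2.2.1 :=
      Primrec.fst.comp (Primrec.snd.comp Primrec.snd)
    have s2 : Primrec fun y : (ℕ × ℕ) × (ℕ × (ℕ × ℕ × ℕ)) => y.2.2.2.1 :=
      Primrec.fst.comp (Primrec.snd.comp (Primrec.snd.comp Primrec.snd))
    have s3 : Primrec fun y : (ℕ × ℕ) × (ℕ × (ℕ × ℕ × ℕ)) => y.2.2.2.2 :=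
      Primrec.snd.comp (Primrec.snd.comp (Primrec.snd.comp Primrec.snd))
    have m : Primrec fun y : (ℕ × ℕ) × (ℕ × (ℕ × ℕ × ℕ)) => y.2.2.2.1 * (2 * y.2.2.1 + 3) :=
      Primrec.nat_mul.comp s2 (Primrec.nat_add.comp (Primrec.nat_mul.comp (Primrec.const 2) s1)
        (Primrec.const 3))
    exact (prim_Mb.comp (Primrec.nat_sub.comp (Primrec.nat_sub.comp r (Primrec.const 1)) k)
      s1).pair (m.pair (Primrec.nat_add.comp m s3))
  have hrec : Primrec fun x : ℕ × ℕ =>
      (Nat.rec (x.2, 1, 0) (fun k s => stp x.1 k s) x.1 : ℕ × ℕ × ℕ) :=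
    Primrec.nat_rec' (f := fun x : ℕ × ℕ => x.1) (g := fun x => (x.2, 1, 0))
      (h := fun x z => stp x.1 z.1 z.2) Primrec.fst
      (Primrec.snd.pair ((Primrec.const 1).pair (Primrec.const 0))) hstep
  refine (Primrec.nat_add.comp (Primrec.nat_mul.comp (Primrec.fst.comp (Primrec.snd.comp hrec))
    (Primrec.fst.comp hrec)) (Primrec.snd.comp (Primrec.snd.comp hrec))).of_eq fun x => ?_
  obtain ⟨s, hs1, hs2⟩ := stp_inv x.1 x.2 x.1 (le_refl _)
  rw [hs1]
  rw [Nat.sub_self] at hs2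
  exact hs2.symm

theorem prim_tC : Primrec tC :=
  Primrec.succ.comp (Primrec.nat_mul.comp (Primrec.const 4) Primrec.id)

theorem prim_bin (j : ℕ) : Primrec₂ fun a b : ℕ => 4 * Nat.pair a b + j :=
  Primrec.nat_add.comp (Primrec.nat_mul.comp (Primrec.const 4)
    (Primrec₂.natPair.comp Primrec.fst Primrec.snd)) (Primrec.const j)

theorem prim_ev : Primrec₂ ev := by
  -- the step on the list of the earlier values
  have hg : Primrec₂ fun (x : ℕ) (l : List ℕ) => (some (if l.length = 0 then x else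
      if (l.length - 1) % 4 = 0 then (l.length - 1) / 4
      else if (l.length - 1) % 4 = 1 then
        (l[((l.length - 1) / 4).unpair.1]?).getD 0 + (l[((l.length - 1) / 4).unpair.2]?).getD 0
      else if (l.length - 1) % 4 = 2 then
        (l[((l.length - 1) / 4).unpair.1]?).getD 0 * (l[((l.length - 1) / 4).unpair.2]?).getD 0
      else
        (l[((l.length - 1) / 4).unpair.1]?).getD 0 ^ (l[((l.length - 1) / 4).unpair.2]?).getD 0) :
          Option ℕ) := by
    have n : Primrec fun y : ℕ × List ℕ => y.2.length := Primrec.list_length.comp Primrec.snd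
    have c : Primrec fun y : ℕ × List ℕ => y.2.length - 1 :=
      Primrec.nat_sub.comp n (Primrec.const 1)
    have q : Primrec fun y : ℕ × List ℕ => (y.2.length - 1) / 4 :=
      Primrec.nat_div.comp c (Primrec.const 4)
    have m : Primrec fun y : ℕ × List ℕ => (y.2.length - 1) % 4 :=
      Primrec.nat_mod.comp c (Primrec.const 4)
    have u : Primrec fun y : ℕ × List ℕ => (y.2[((y.2.length - 1) / 4).unpair.1]?).getD 0 :=
      Primrec.option_getD.comp (Primrec.list_getElem?.comp Primrec.snd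
        (Primrec.fst.comp (Primrec.unpair.comp q))) (Primrec.const 0)
    have v : Primrec fun y : ℕ × List ℕ => (y.2[((y.2.length - 1) / 4).unpair.2]?).getD 0 :=
      Primrec.option_getD.comp (Primrec.list_getElem?.comp Primrec.snd
        (Primrec.snd.comp (Primrec.unpair.comp q))) (Primrec.const 0)
    refine Primrec.option_some.comp (Primrec.ite (Primrec.eq.comp n (Primrec.const 0))
      Primrec.fst ?_)
    refine Primrec.ite (Primrec.eq.comp m (Primrec.const 0)) q ?_
    refine Primrec.ite (Primrec.eq.comp m (Primrec.const 1)) (Primrec.nat_add.comp u v) ?_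
    exact Primrec.ite (Primrec.eq.comp m (Primrec.const 2)) (Primrec.nat_mul.comp u v)
      (primrec_npow'.comp u v)
  refine Primrec.nat_strong_rec _ hg fun x c => ?_
  rw [Option.some_inj, List.length_map, List.length_range]
  rcases c with _ | c
  · simp [ev_zero]
  · obtain ⟨h1, h2⟩ := unp c
    rw [if_neg (by omega), Nat.add_sub_cancel, ev]
    have e1 : (((List.range (c + 1)).map (ev x))[(c / 4).unpair.1]?).getD 0 =
        ev x (c / 4).unpair.1 := by
      rw [List.getElem?_map, List.getElem?_range h1]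
      rfl
    have e2 : (((List.range (c + 1)).map (ev x))[(c / 4).unpair.2]?).getD 0 =
        ev x (c / 4).unpair.2 := by
      rw [List.getElem?_map, List.getElem?_range h2]
      rfl
    rw [e1, e2]

theorem rv_ev : ∀ c n : ℕ, rv (n : ℝ) c = (ev n c : ℝ) := by
  intro c n
  induction c using Nat.strong_induction_on with
  | _ c ih =>
    rcases code_cases c with rfl | ⟨k, rfl⟩ | ⟨a, b, ha, hb, _, rfl | rfl | rfl⟩
    · rw [rv_zero, ev_zero]
    · rw [rv_tC, ev_tC]
    · rw [rv_tA, ev_tA, ih a ha, ih b hb]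
      push_cast
      rfl
    · rw [rv_tM, ev_tM, ih a ha, ih b hb]
      push_cast
      rfl
    · rw [rv_tP, ev_tP, ih a ha, ih b hb, Real.rpow_natCast]
      push_cast
      rfl

theorem evs : EVStm := ⟨prim_ev, rv_ev, prim_tC, prim_bin 2, prim_bin 3, prim_bin 4⟩

end Pool.Agent.Q205.LV
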