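import Pool.Agent.Q205.LV.Defs

/-! Statements of the lemmas of the project LV (MP_6adfe4_lc: Levitz's class is not a basis for
punctual standardness), with their proofs on paper. -/

set_option autoImplicit false

namespace Pool.Agent.Q205.LV

/-- **LVALG.** Closure properties of `Pol`.

Proof. Induction on `r`. (mono) add zero coefficients; (up) `a 0 = f`, `a j = 0` for `j > 0`;
(mul) Cauchy product: the coefficients of the product are sums of products of two coefficients, of
degree at most `d + e`; pad with zeros. Analyticity: sums of products of analytic functions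
(`AnalyticOnNhd`), and `f` agrees with such a function on the open set `Ioi 0`. -/
def ALGStm : Prop := ∀ y : ℕ → ℝ → ℝ,
  (∀ (r d e : ℕ) (f : ℝ → ℝ), d ≤ e → Pol y r d f → Pol y r e f) ∧
  (∀ (r s d : ℕ) (f : ℝ → ℝ), r ≤ s → Pol y r d f → Pol y s d f) ∧
  (∀ (r d : ℕ) (f g : ℝ → ℝ), (∀ x, 0 < x → f x = g x) → Pol y r d f → Pol y r d g) ∧
  (∀ (r d : ℕ) (c : ℝ), Pol y r d (fun _ => c)) ∧
  (∀ r : ℕ, Pol y r 1 (fun x => x)) ∧
  (∀ r : ℕ, Pol y (r + 1) 1 (y r)) ∧
  (∀ (r d : ℕ) (f g : ℝ → ℝ), Pol y r d f → Pol y r d g → Pol y r d (fun x => f x + g x)) ∧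
  (∀ (r d e : ℕ) (f g : ℝ → ℝ), Pol y r d f → Pol y r e g →
    Pol y r (d + e) (fun x => f x * g x)) ∧
  (∀ (r d : ℕ) (f : ℝ → ℝ), Chn y r → Pol y r d f → AnalyticOnNhd ℝ f (Set.Ioi 0))

/-- **LVDER.** Derivatives of polynomials in a chain.

Proof. Induction on `r` with the sharper bound `d + E r`, `E 0 = 0`, `E (r + 1) = E r + 4 ^ (r + 1)
+ 1` (so `E r ≤ 4 ^ (r + 1)`). For `f = ∑ a_j y ^ j` (`y = y r`) the derivative is
`∑ a_j' y ^ j + ∑ j a_j y ^ (j - 1) y'`; exponential type: `y ^ (j - 1) y' = Q y ^ j`; primitive type: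
`y ^ (j - 1) Q`; inverse type: `y' = - Q' y ^ 2` (derivative of `1 / Q`, `Q' ∈ Pol y r
(4 ^ (r + 1) + E r)` by the induction hypothesis), `y ^ (j - 1) y' = - Q' y ^ (j + 1)`. -/
def DERStm : Prop := ∀ (y : ℕ → ℝ → ℝ) (r d : ℕ) (f : ℝ → ℝ), Chn y r → Pol y r d f →
  ∃ f' : ℝ → ℝ, Pol y r (d + 4 ^ (r + 1)) f' ∧ ∀ x, 0 < x → HasDerivAt f (f' x) x

/-- **LVROL.** Counting zeros by Rolle's theorem.

Proof. Let `S` be a finite set of positive zeros of `f`, `S = S₀ ∪ S₁` with `a = 0` on `S₀`
(`|S₀| ≤ N`) and `a ≠ 0` on `S₁`. If `x < z` are consecutive in `S₁` then the open interval contains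
a zero of `a` or a zero of `f' a - f a'` (Rolle for `f / a` on `[x, z]`). So by
`Finset.card_le_of_interleaved` (applied to `S₁` and a finite set with one such point for each pair
of consecutive elements; this finite set has at most `N + M` elements) `|S₁| ≤ N + M + 1`. -/
def ROLStm : Prop := ∀ (f a f' a' : ℝ → ℝ) (N M : ℕ), (∀ x, 0 < x → HasDerivAt f (f' x) x) →
  (∀ x, 0 < x → HasDerivAt a (a' x) x) → NZ a N → NZ (fun x => f' x * a x - f x * a' x) M →
    NZ f (2 * N + M + 1)

/-- **LVZB.** The number of zeros.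

Proof. Induction on `r`; `r = 0`: a polynomial of degree at most `d`. Step: `y = y r`, `Q` as in
`Chn`, `E = 4 ^ (r + 1)`, `f = ∑_{j ≤ d} a_j y ^ j`.
Inverse type: `f Q ^ d = ∑ a_j Q ^ (d - j)` is in `Pol y r (d + d E)` and has the same zeros;
`d + d E ≤ Mb r d` and `Zb r` is monotone.
Exponential and primitive type: one shows by induction on `k` for all `e` and all
`f = ∑_{j ≤ k} a_j y ^ j` with `a_j ∈ Pol y r e`: `f` vanishes identically or has at most
`K k e = (2 k + 1) (Zb r (2 ^ k (e + 2 E)) + 1)` zeros. `k = 0`: induction hypothesis for `r`.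
Step `k`, primitive type: if `a_k` vanishes identically use `k - 1`. Otherwise
`g = f' a_k - f a_k' = ∑_{j < k} (a_j' a_k + (j + 1) a_{j+1} Q a_k - a_j a_k') y ^ j` (the
coefficient of `y ^ k` is zero), with coefficients in `Pol y r (2 e + 2 E)` (`DERStm`). If `g` does
not vanish identically then `NZ g (K (k - 1) (2 e + 2 E))` and `ROLStm` gives
`2 Zb r e + K (k - 1) (2 e + 2 E) + 1 ≤ K k e`. If `g` vanishes identically then `f / a_k` is
locally constant where `a_k ≠ 0`; so if `f` has a positive zero at which `a_k ≠ 0` then `f` is zero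
in a neighbourhood, hence identically (`f` is analytic, `Ioi 0` is preconnected:
`AnalyticOnNhd.eqOn_zero_of_preconnected_of_eventuallyEq_zero`); otherwise the zeros of `f` are zeros
of `a_k`.
Exponential type (`y > 0`, `y' = y Q`): if `a_0` vanishes identically then
`f = y ∑_{j < k} a_{j+1} y ^ j` and we use `k - 1`. Otherwise `f' a_0 - f a_0' = y g`,
`g = ∑_{1 ≤ j ≤ k} (a_j' a_0 + j Q a_j a_0 - a_j a_0') y ^ (j - 1)`, and the same argument applies.
Finally `K d d ≤ Zb (r + 1) d`, since `2 ^ d (d + 2 E) ≤ Mb r d`. -/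
def ZBStm : Prop := ∀ (y : ℕ → ℝ → ℝ) (r d : ℕ) (f : ℝ → ℝ), Chn y r → Pol y r d f →
  (∀ x, 0 < x → f x = 0) ∨ NZ f (Zb r d)

/-- **LVZPR.** The bound is primitive recursive.

Proof. `p * Zb (r + 1) d + q = p (2 d + 3) * Zb r (Mb r d) + (p (2 d + 3) + q)`, so the iteration of
the primitive recursive map `(r + 1, d, p, q) ↦ (r, Mb r d, p (2 d + 3), p (2 d + 3) + q)`, started in
`(r, d, 1, 0)`, leads after `r` steps to `(0, d', p', q')` with `Zb r d = p' d' + q'`. -/
def ZPRStm : Prop := Primrec₂ Zb

/-- **LVEV.** Evaluation of terms is primitive recursive (`Primrec.nat_strong_rec`), and so are the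
code functions; the real function extends the function on the numbers (`Real.rpow_natCast`). -/
def EVStm : Prop := Primrec₂ ev ∧ (∀ c n : ℕ, rv (n : ℝ) c = (ev n c : ℝ)) ∧ Primrec tC ∧
  Primrec₂ tA ∧ Primrec₂ tM ∧ Primrec₂ tP

/-- **LVGE.** A term is constant or at least the identity (on the positive numbers).

Proof. Strong induction on the code (`code_cases`). For a power `a ^ b`: if `a` is constant `0`:
`b` constant, or `b n ≥ n ≥ 1` and the value is `0`; constant `1`: the value is `1`; constant `k ≥ 2`: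
`k ^ (b n) ≥ 2 ^ n ≥ n` or constant; if `a n ≥ n`: `b` constant `0` gives `1`, otherwise
`b n ≥ 1` and `a n ^ b n ≥ a n ≥ n`. -/
def GEStm : Prop := ∀ c : ℕ, (∀ n, 1 ≤ n → ev n c = ev 1 c) ∨ (∀ n, 1 ≤ n → n ≤ ev n c)

/-- The bound for the number of coincidences of two terms with codes at most `c`. -/
def ZT (c : ℕ) : ℕ := Zb (3 * c + 3) (c + 1)

/-- **LVTRM.** Two terms with codes at most `c` agree at all positive integers or at no more than
`ZT c` of them.

Proof. (i) Each real function `rv · c` is identically zero or everywhere positive on the positive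
half line (strong induction with `code_cases`; `Real.rpow`: `0 ^ 0 = 1`, `0 ^ s = 0` for `s ≠ 0`,
positive base: positive).
(ii) The chain: for `3 i`: `rv · i` if `i` is the code of a power `tP a b` with `rv · a` positive,
and the constant function `1` otherwise; for `3 i + 1`: `1 / rv · i` if this is positive, `1`
otherwise; for `3 i + 2`: `log (rv · i)` if positive, `1` otherwise. (Take `Q = 0` and primitive
type for the constants.)
(iii) By strong induction on `i`: `Chn y (3 i)` implies `Chn y (3 i + 1)`,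
`Pol y (3 i + 1) (i + 1) (rv · i)` and `Chn y (3 i + 3)`. Variable and constants are clear; sum and
product: the degrees of the parts are at most `a + 1`, `b + 1` and `a + b + 1 < i`
(`code_cases`). Power with base identically zero: the function is constant (`0` or `1`) by
(i). Power with positive base: `y (3 i) = exp (rv b log (rv a))` has the logarithmic derivative
`(rv b)' log (rv a) + rv b (rv a)' / rv a = (rv b)' y (3 a + 2) + rv b (rv a)' y (3 a + 1)`, by
`DERStm` in `Pol y (3 i) (4 ^ (3 i + 1))` since `a, b ≤ i - 1`. `3 i + 1` is of inverse type with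
`Q = rv · i`, `3 i + 2` of primitive type with `Q = (rv · i)' y (3 i + 1)`.
(iv) `f = rv · a - rv · b ∈ Pol y (3 c + 3) (c + 1)`; apply `ZBStm` and `EVStm`: if `f` vanishes
identically then the terms agree at all positive integers; otherwise the coincidences are zeros of
`f`. -/
def TRMStm : Prop := ∀ c a b : ℕ, a ≤ c → b ≤ c → (∀ n, 1 ≤ n → ev n a = ev n b) ∨
  ∀ S : Finset ℕ, (∀ n ∈ S, 1 ≤ n ∧ ev n a = ev n b) → S.card ≤ ZT c

/-- **LVT.** Fast growing functions with a primitive recursive graph.

Proof. Let `p` be a `Nat.Partrec.Code` of a total computable function which is not primitive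
recursive (`fun n => ack n n`, `not_primrec_ack_self`, `computable₂_ack` if it exists, or a
diagonal function) and `T₀ e` the least `t` with
`evaln t p e ≠ none`; `{(e, t) | T₀ e ≤ t}` is primitive recursive (`evaln` is monotone in `t`) and
`T₀` is not bounded by a primitive recursive function `g` (otherwise `p` would be primitive
recursive via `evaln (g e) p e`). Let `T 0 = T₀ 0 + 1`, `T (e + 1) = max (H (T e) + 1) (T₀ (e + 1))`.
The function `τ t e = if T e ≤ t then T e + 1 else 0` is primitive recursive by recursion on `e`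
(`T₀ e ≤ t` is decidable and then `T₀ e` is found by bounded search). -/
def TStm : Prop := ∀ H : ℕ → ℕ, Primrec H → ∃ T : ℕ → ℕ, (PrimrecRel fun e t : ℕ => T e ≤ t) ∧
  0 < T 0 ∧ (∀ e, H (T e) < T (e + 1)) ∧ ∀ g : ℕ → ℕ, Primrec g → ∃ e, g e < T e

/-- **LVSTR.** The copy as a decidable set of names.

Proof. `EQ a b` (the terms agree at all positive integers) is a primitive recursive relation: check
all `n ≤ ZT (max a b) + 1`, `n ≥ 1` (`TRMStm`; `ZT` is primitive recursive by `ZPRStm`). Also `Cst u`:
`EQ u (tC (ev 1 u))`. `nm u` is the least code `≤ u` with `EQ (nm u) u`. Separation: there is a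
primitive recursive `B` with `c + 1 ≤ B c` and `ev (B c) a = ev (B c) b → EQ a b` for `a, b ≤ c`
(search up to `c + 2 + (c + 1) ^ 2 * ZT c`: each pair excludes at most `ZT c` numbers). Let
`H v = v + ∑_{t ≤ v} ev (B v) t`, `T` as in `TStm` for this `H`, `nn e = B (T e)`. `T` is strictly
increasing, `e ≤ T e ≤ nn e`.
Names: `2 k` (number `k`) and `2 ⟨e, t⟩ + 1` (term `t` in block `e`, value `ev (nn e) t`). The name
`2 ⟨e, t⟩ + 1` is valid (`D`) if `t < T e`, `t` is not `Cst` and `¬ EQ t' t` for all `t' < t`.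
`2 k` is valid if no valid `2 ⟨e, t⟩ + 1` has the value `k`; if it has then
`e, t ≤ T e ≤ nn e ≤ ev (nn e) t = k` (`GEStm`), so this is decidable (`T e ≤ k`, then `T e` and
`nn e` are found by search below `k`). Values of different valid names are different: same block by
the separation property and minimality of the codes; blocks `e < e'`:
`ev (nn e) t ≤ H (T e) < T (e + 1) ≤ T e' ≤ nn e' ≤ ev (nn e') t'`.
`c k`: the valid name of block type with value `k` if there is one (search `e, t ≤ k`), otherwise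
`2 k`. `name e u`: if `Cst u` then `c (ev 1 u)`; otherwise let `v = nm u ≤ u`; if `v < T e` the name is
`2 ⟨e, v⟩ + 1`; otherwise `T e ≤ v`, so `T e` is found by search and the name is
`c (ev (B (T e)) u)`. -/
def STRStm : Prop := ∃ (T nn : ℕ → ℕ) (D : ℕ → Prop) (val c : ℕ → ℕ) (name : ℕ → ℕ → ℕ),
  PrimrecPred D ∧ Primrec c ∧ Primrec₂ name ∧ (∀ k, D (c k) ∧ val (c k) = k) ∧
  (∀ a b, D a → D b → val a = val b → a = b) ∧
  (∀ e u, D (name e u) ∧ val (name e u) = ev (nn e) u) ∧
  (∀ a, D a → (a % 2 = 0 ∧ val a = a / 2) ∨ (a % 2 = 1 ∧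
    val a = ev (nn (Nat.unpair (a / 2)).1) (Nat.unpair (a / 2)).2)) ∧
  (∀ e, T e ≤ nn e) ∧ ∀ g : ℕ → ℕ, Primrec g → ∃ e, g e < T e

/-- **LVCPY.** From a decidable set of names to a copy on `ℕ`.

Proof. `π a = #{a' < a | D a'}` is a primitive recursive bijection from `D` onto `ℕ` (`D` is
infinite since `c` is injective); its inverse is primitive recursive: the `n`-th element of `D` is
at most the maximum of `c 0, …, c n` (these are `n + 1` different elements of `D`), so it is found by
a bounded search. `iso k = π (c k)`, `iso⁻¹ n = val (π⁻¹ n)`. Then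
`iso (f (iso⁻¹ n)) = π (F (π⁻¹ n))`, since `F (π⁻¹ n)` is the unique element of `D` with the value
`f (val (π⁻¹ n))`, which is also `c (f (val (π⁻¹ n)))`. If `iso⁻¹` is primitive recursive then
`g a = iso⁻¹ (π a)`. -/
def CPYStm : Prop := ∀ (D : ℕ → Prop) (val c : ℕ → ℕ), PrimrecPred D → Primrec c →
  (∀ k, D (c k) ∧ val (c k) = k) → (∀ a b, D a → D b → val a = val b → a = b) →
  ∃ iso : ℕ ≃ ℕ,
    (∀ f F : ℕ → ℕ, Primrec F → (∀ a, D a → D (F a) ∧ val (F a) = f (val a)) →
      Primrec fun n => iso (f (iso.symm n))) ∧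
    (Primrec iso.symm → ∃ g : ℕ → ℕ, Primrec g ∧ ∀ a, D a → g a = val a)

end Pool.Agent.Q205.LV
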