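import Pool.Agent.Q205.LV.Stm

/-! LVSTR. -/

set_option autoImplicit false

namespace Pool.Agent.Q205.LV

section prim
variable {α : Type*} [Primcodable α]

theorem pp_all_lt {f : α → ℕ} {p : α → ℕ → Prop} (hp : PrimrecRel p) (hf : Primrec f) :
    PrimrecPred fun a => ∀ b < f a, p a b :=
  ((PrimrecRel.forall_mem_list (R := fun b a => p a b) (hp.comp Primrec.snd Primrec.fst)).comp
    (Primrec.list_range.comp hf) Primrec.id).of_eq (by simp)

end prim

/-- agreement at all positive integers -/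
def EQ (a b : ℕ) : Prop := ∀ n, 1 ≤ n → ev n a = ev n b

theorem EQ.symm {a b : ℕ} (h : EQ a b) : EQ b a := fun n hn => (h n hn).symm
theorem EQ.trans {a b c : ℕ} (h : EQ a b) (h' : EQ b c) : EQ a c := fun n hn =>
  (h n hn).trans (h' n hn)
theorem EQ.rfl' (a : ℕ) : EQ a a := fun _ _ => rfl

theorem EQ_iff (htrm : TRMStm) (a b : ℕ) :
    EQ a b ↔ ∀ n < ZT (max a b) + 2, 1 ≤ n → ev n a = ev n b := by
  constructor
  · intro h n _ hn
    exact h n hn
  · intro h
    rcases htrm (max a b) a b (le_max_left _ _) (le_max_right _ _) with h1 | h1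
    · exact h1
    · have h2 := h1 (Finset.Icc 1 (ZT (max a b) + 1)) (by
        intro n hn
        rw [Finset.mem_Icc] at hn
        exact ⟨hn.1, h n (by omega) hn.1⟩)
      rw [Nat.card_Icc] at h2
      omega

theorem prim_ZT (hz : ZPRStm) : Primrec ZT :=
  Primrec₂.comp hz (Primrec.nat_add.comp (Primrec.nat_mul.comp (Primrec.const 3) Primrec.id)
    (Primrec.const 3)) Primrec.succ

theorem prim_EQ (hz : ZPRStm) (hev : EVStm) (htrm : TRMStm) : PrimrecRel EQ := by
  have h1 : PrimrecPred fun x : ℕ × ℕ => ∀ n < ZT (max x.1 x.2) + 2, 1 ≤ n → ev n x.1 = ev n x.2 := by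
    refine pp_all_lt (α := ℕ × ℕ) (p := fun x n => 1 ≤ n → ev n x.1 = ev n x.2) ?_ ?_
    · have h2 : PrimrecPred fun y : (ℕ × ℕ) × ℕ => ¬ 1 ≤ y.2 ∨ ev y.2 y.1.1 = ev y.2 y.1.2 :=
        PrimrecPred.or (PrimrecPred.not (Primrec.nat_le.comp (Primrec.const 1) Primrec.snd))
          (Primrec.eq.comp (hev.1.comp Primrec.snd (Primrec.fst.comp Primrec.fst))
            (hev.1.comp Primrec.snd (Primrec.snd.comp Primrec.fst)))
      exact h2.of_eq fun y => by
        show _ ↔ (1 ≤ y.2 → _)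
        tauto
    · exact Primrec.nat_add.comp ((prim_ZT hz).comp (Primrec.nat_max.comp Primrec.fst
        Primrec.snd)) (Primrec.const 2)
  exact h1.of_eq fun x => (EQ_iff htrm x.1 x.2).symm

theorem separation (htrm : TRMStm) (c : ℕ) : ∃ n, c + 1 ≤ n ∧
    n ≤ c + 1 + (c + 1) ^ 2 * ZT c ∧ ∀ a < c + 1, ∀ b < c + 1, ev n a = ev n b → EQ a b := by
  classical
  by_contra hcon
  push Not at hcon
  have h1 : Finset.Icc (c + 1) (c + 1 + (c + 1) ^ 2 * ZT c) ⊆
      (Finset.range (c + 1) ×ˢ Finset.range (c + 1)).biUnion fun p =>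
        if EQ p.1 p.2 then ∅ else (Finset.Icc (c + 1) (c + 1 + (c + 1) ^ 2 * ZT c)).filter
          fun n => ev n p.1 = ev n p.2 := by
    intro n hn
    have hn' := Finset.mem_Icc.1 hn
    obtain ⟨a, ha, b, hb, hab, hne⟩ := hcon n hn'.1 hn'.2
    rw [Finset.mem_biUnion]
    refine ⟨(a, b), ?_, ?_⟩
    · rw [Finset.mem_product, Finset.mem_range, Finset.mem_range]
      exact ⟨ha, hb⟩
    · simp only [hne, if_false, Finset.mem_filter]
      exact ⟨hn, hab⟩
  have h2 := (Finset.card_le_card h1).trans Finset.card_biUnion_le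
  have h3 : ∀ p ∈ Finset.range (c + 1) ×ˢ Finset.range (c + 1), (if EQ p.1 p.2 then (∅ : Finset ℕ)
      else (Finset.Icc (c + 1) (c + 1 + (c + 1) ^ 2 * ZT c)).filter
          fun n => ev n p.1 = ev n p.2).card ≤ ZT c := by
    intro p hp
    rw [Finset.mem_product, Finset.mem_range, Finset.mem_range] at hp
    by_cases h : EQ p.1 p.2
    · simp [h]
    · simp only [h, if_false]
      rcases htrm c p.1 p.2 (by omega) (by omega) with h4 | h4
      · exact absurd h4 h
      · apply h4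
        intro n hn
        rw [Finset.mem_filter, Finset.mem_Icc] at hn
        exact ⟨by omega, hn.2⟩
  have h4 := (Finset.sum_le_card_nsmul _ _ _ h3)
  rw [Finset.card_product, Finset.card_range, smul_eq_mul] at h4
  rw [Nat.card_Icc] at h2
  have h5 : (c + 1) * (c + 1) * ZT c = (c + 1) ^ 2 * ZT c := by ring
  rw [h5] at h4
  omega

theorem min_search {P : ℕ → Prop} [DecidablePred P] {m u : ℕ} (hm : P m) (hmin : ∀ c < m, ¬ P c)
    (Q : ℕ → Prop) [DecidablePred Q] (hQ : ∀ c, Q c ↔ ∀ c' < c, ¬ P c') :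
    Nat.findGreatest Q u = min m u := by
  rw [Nat.findGreatest_eq_iff]
  refine ⟨min_le_right _ _, fun _ => ?_, fun k hk1 hk2 hk3 => ?_⟩
  · rw [hQ]
    intro c' hc'
    exact hmin c' (lt_of_lt_of_le hc' (min_le_left _ _))
  · rw [hQ] at hk3
    exact hk3 m (by omega) hm

theorem str (hz : ZPRStm) (hev : EVStm) (hge : GEStm) (htrm : TRMStm) (ht : TStm) : STRStm := by
  classical
  have pEQ := prim_EQ hz hev htrm
  have pev : Primrec₂ ev := hev.1
  -- minimal codes
  obtain ⟨nm, hnm⟩ : ∃ nm : ℕ → ℕ, nm = fun u => Nat.findGreatest (fun c => ∀ c' < c, ¬ EQ c' u) u :=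
    ⟨_, rfl⟩
  have hnm1 : ∀ u, nm u ≤ u ∧ EQ (nm u) u ∧ ∀ c' < nm u, ¬ EQ c' u := by
    intro u
    have hex : ∃ c, EQ c u := ⟨u, EQ.rfl' u⟩
    have h1 : nm u = min (Nat.find hex) u := by
      rw [hnm]
      exact min_search (P := fun c => EQ c u) (Nat.find_spec hex)
        (fun c hc => Nat.find_min hex hc) _ fun c => Iff.rfl
    have h2 : Nat.find hex ≤ u := Nat.find_min' hex (EQ.rfl' u)
    rw [min_eq_left h2] at h1
    rw [h1]
    exact ⟨h2, Nat.find_spec hex, fun c hc => Nat.find_min hex hc⟩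
  have pnm : Primrec nm := by
    rw [hnm]
    refine Primrec.nat_findGreatest (f := fun u : ℕ => u) (p := fun u c => ∀ c' < c, ¬ EQ c' u)
      Primrec.id ?_
    exact pp_all_lt (α := ℕ × ℕ) (p := fun x c' => ¬ EQ c' x.1)
      (PrimrecPred.not (pEQ.comp Primrec.snd (Primrec.fst.comp Primrec.fst))) Primrec.snd
  -- constants
  obtain ⟨Cst, hCst⟩ : ∃ Cst : ℕ → Prop, Cst = fun u => EQ u (tC (ev 1 u)) := ⟨_, rfl⟩
  have hCst1 : ∀ u, Cst u ↔ ∀ n, 1 ≤ n → ev n u = ev 1 u := by
    intro u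
    rw [hCst]
    constructor
    · intro h n hn
      rw [h n hn, ev_tC]
    · intro h n hn
      rw [h n hn, ev_tC]
  have pCst : PrimrecPred Cst := by
    rw [hCst]
    exact pEQ.comp Primrec.id (hev.2.2.1.comp (pev.comp (Primrec.const 1) Primrec.id))
  have hCst2 : ∀ u, ¬ Cst u → ∀ n, 1 ≤ n → n ≤ ev n u := by
    intro u hu n hn
    rcases hge u with h | h
    · exact absurd ((hCst1 u).2 h) hu
    · exact h n hn
  -- separation
  obtain ⟨B, hBd⟩ : ∃ B : ℕ → ℕ, B = fun c => Nat.findGreatest (fun n => c + 1 ≤ n ∧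
    ∀ a < c + 1, ∀ b < c + 1, ev n a = ev n b → EQ a b) (c + 1 + (c + 1) ^ 2 * ZT c) := ⟨_, rfl⟩
  have hB : ∀ c, c + 1 ≤ B c ∧ ∀ a < c + 1, ∀ b < c + 1, ev (B c) a = ev (B c) b → EQ a b := by
    intro c
    obtain ⟨n, h1, h2, h3⟩ := separation htrm c
    rw [hBd]
    exact Nat.findGreatest_spec (P := fun n => c + 1 ≤ n ∧
      ∀ a < c + 1, ∀ b < c + 1, ev n a = ev n b → EQ a b) h2 ⟨h1, h3⟩
  have pB : Primrec B := by
    rw [hBd]
    refine Primrec.nat_findGreatest (f := fun c : ℕ => c + 1 + (c + 1) ^ 2 * ZT c)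
      (p := fun c n => c + 1 ≤ n ∧ ∀ a < c + 1, ∀ b < c + 1, ev n a = ev n b → EQ a b) ?_ ?_
    · have h1 : Primrec fun c : ℕ => c + 1 + (c + 1) * (c + 1) * ZT c :=
        Primrec.nat_add.comp Primrec.succ (Primrec.nat_mul.comp (Primrec.nat_mul.comp
          Primrec.succ Primrec.succ) (prim_ZT hz))
      exact h1.of_eq fun c => by ring
    · refine PrimrecPred.and (Primrec.nat_le.comp (Primrec.succ.comp Primrec.fst) Primrec.snd) ?_
      refine pp_all_lt (α := ℕ × ℕ) (p := fun x a => ∀ b < x.1 + 1, ev x.2 a = ev x.2 b → EQ a b)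
        ?_ (Primrec.succ.comp Primrec.fst)
      refine pp_all_lt (α := (ℕ × ℕ) × ℕ) (p := fun x b => ev x.1.2 x.2 = ev x.1.2 b → EQ x.2 b)
        ?_ (Primrec.succ.comp (Primrec.fst.comp Primrec.fst))
      have n : Primrec fun y : ((ℕ × ℕ) × ℕ) × ℕ => y.1.1.2 :=
        Primrec.snd.comp (Primrec.fst.comp Primrec.fst)
      have a : Primrec fun y : ((ℕ × ℕ) × ℕ) × ℕ => y.1.2 := Primrec.snd.comp Primrec.fst
      have h2 : PrimrecPred fun y : ((ℕ × ℕ) × ℕ) × ℕ =>
          ¬ ev y.1.1.2 y.1.2 = ev y.1.1.2 y.2 ∨ EQ y.1.2 y.2 :=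
        PrimrecPred.or (PrimrecPred.not (Primrec.eq.comp (pev.comp n a)
          (pev.comp n Primrec.snd))) (pEQ.comp a Primrec.snd)
      exact h2.of_eq fun y => by
        show _ ↔ (ev y.1.1.2 y.1.2 = ev y.1.1.2 y.2 → EQ y.1.2 y.2)
        tauto
  -- the growth condition
  obtain ⟨H, hHd⟩ : ∃ H : ℕ → ℕ, H = fun v => v + (Nat.rec 0 (fun k s => s + ev (B v) k) (v + 1) : ℕ) :=
    ⟨_, rfl⟩
  have hH : ∀ v, v ≤ H v ∧ ∀ t ≤ v, ev (B v) t ≤ H v := by
    intro v
    rw [hHd]
    refine ⟨Nat.le_add_right _ _, fun t ht => ?_⟩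
    have h1 : ∀ n, ∀ t < n, ev (B v) t ≤ (Nat.rec 0 (fun k s => s + ev (B v) k) n : ℕ) := by
      intro n
      induction n with
      | zero => intro t ht; omega
      | succ n ih =>
        intro t ht
        rcases Nat.lt_or_ge t n with h | h
        · exact (ih t h).trans (Nat.le_add_right _ _)
        · rw [show t = n by omega]
          exact Nat.le_add_left _ _
    exact (h1 (v + 1) t (by omega)).trans (Nat.le_add_left _ _)
  have pH : Primrec H := by
    rw [hHd]
    have hstep : Primrec₂ fun (v : ℕ) (z : ℕ × ℕ) => z.2 + ev (B v) z.1 :=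
      Primrec.nat_add.comp (Primrec.snd.comp Primrec.snd)
        (pev.comp (pB.comp Primrec.fst) (Primrec.fst.comp Primrec.snd))
    exact Primrec.nat_add.comp Primrec.id (Primrec.nat_rec' (f := fun v : ℕ => v + 1)
      (g := fun _ => 0) (h := fun v z => z.2 + ev (B v) z.1) Primrec.succ (Primrec.const 0) hstep)
  obtain ⟨T, pT, hT0, hT1, hT2⟩ := ht H pH
  have hTm : StrictMono T := strictMono_nat_of_lt_succ fun e =>
    lt_of_le_of_lt (hH (T e)).1 (hT1 e)
  have hTe : ∀ e, e < T e := by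
    intro e
    induction e with
    | zero => exact hT0
    | succ e ih => have := hTm (show e < e + 1 by omega); omega
  obtain ⟨nn, hnn⟩ : ∃ nn : ℕ → ℕ, nn = fun e => B (T e) := ⟨_, rfl⟩
  have hnn1 : ∀ e, T e + 1 ≤ nn e := fun e => by rw [hnn]; exact (hB (T e)).1
  -- bounded values of T
  obtain ⟨Tv, hTvd⟩ : ∃ Tv : ℕ → ℕ → ℕ, Tv = fun t e =>
    Nat.findGreatest (fun s => ∀ s' < s, ¬ T e ≤ s') t := ⟨_, rfl⟩
  have hTv : ∀ t e, Tv t e = min (T e) t := by
    intro t e
    rw [hTvd]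
    exact min_search (P := fun s => T e ≤ s) (le_refl (T e)) (fun c hc => by omega) _
      fun c => Iff.rfl
  have pTv : Primrec₂ Tv := by
    rw [hTvd]
    refine Primrec.nat_findGreatest (f := fun x : ℕ × ℕ => x.1)
      (p := fun x s => ∀ s' < s, ¬ T x.2 ≤ s') Primrec.fst ?_
    exact pp_all_lt (α := (ℕ × ℕ) × ℕ) (p := fun x s' => ¬ T x.1.2 ≤ s')
      (PrimrecPred.not (pT.comp (Primrec.snd.comp (Primrec.fst.comp Primrec.fst)) Primrec.snd))
      Primrec.snd
  -- valid names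
  obtain ⟨V, hV⟩ : ∃ V : ℕ → ℕ → Prop, V = fun e t => ¬ T e ≤ t ∧ ¬ Cst t ∧ ∀ t' < t, ¬ EQ t' t :=
    ⟨_, rfl⟩
  have pV : PrimrecRel V := by
    rw [hV]
    refine PrimrecPred.and (PrimrecPred.not pT) (PrimrecPred.and (PrimrecPred.not
      (pCst.comp Primrec.snd)) ?_)
    exact pp_all_lt (α := ℕ × ℕ) (p := fun x t' => ¬ EQ t' x.2)
      (PrimrecPred.not (pEQ.comp Primrec.snd (Primrec.snd.comp Primrec.fst))) Primrec.snd
  have hVge : ∀ e t, V e t → nn e ≤ ev (nn e) t := by
    intro e t h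
    rw [hV] at h
    exact hCst2 t h.2.1 _ (by have := hnn1 e; omega)
  have hVu : ∀ e t e' t', V e t → V e' t' → ev (nn e) t = ev (nn e') t' → e = e' ∧ t = t' := by
    have hlt : ∀ e t e' t', V e t → V e' t' → e < e' → ev (nn e) t < ev (nn e') t' := by
      intro e t e' t' h h' hee
      have h1 := hVge e' t' h'
      have h2 := hnn1 e'
      have h3 : T (e + 1) ≤ T e' := hTm.monotone hee
      have h4 := hT1 e
      rw [hV] at h
      have h5 := (hH (T e)).2 t (by omega)
      have h6 : ev (nn e) t = ev (B (T e)) t := by rw [hnn]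
      omega
    intro e t e' t' h h' heq
    rcases lt_trichotomy e e' with hl | hl | hl
    · have := hlt e t e' t' h h' hl
      omega
    · subst hl
      refine ⟨rfl, ?_⟩
      rw [hV] at h h'
      have h1 : EQ t t' := by
        apply (hB (T e)).2 t (by omega) t' (by omega)
        rw [hnn] at heq
        exact heq
      rcases lt_trichotomy t t' with hl | hl | hl
      · exact absurd h1 (h'.2.2 t hl)
      · exact hl
      · exact absurd h1.symm (h.2.2 t' hl)
    · have := hlt e' t' e t h' h hl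
      omega
  -- search for a block name
  obtain ⟨bl, hbl⟩ : ∃ bl : ℕ → ℕ → Prop, bl = fun k j => V j.unpair.1 j.unpair.2 ∧
    T j.unpair.1 ≤ k ∧ ev (B (Tv k j.unpair.1)) j.unpair.2 = k := ⟨_, rfl⟩
  have hbl1 : ∀ k j, bl k j ↔ V j.unpair.1 j.unpair.2 ∧ ev (nn j.unpair.1) j.unpair.2 = k := by
    intro k j
    rw [hbl]
    constructor
    · rintro ⟨h1, h2, h3⟩
      rw [hTv, min_eq_left h2] at h3
      rw [hnn]
      exact ⟨h1, h3⟩
    · rintro ⟨h1, h2⟩
      have h3 := hVge _ _ h1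
      have h4 := hnn1 j.unpair.1
      have h5 : T j.unpair.1 ≤ k := by omega
      refine ⟨h1, h5, ?_⟩
      rw [hTv, min_eq_left h5]
      rw [hnn] at h2
      exact h2
  have pbl : PrimrecRel bl := by
    rw [hbl]
    have j1 : Primrec fun x : ℕ × ℕ => x.2.unpair.1 :=
      Primrec.fst.comp (Primrec.unpair.comp Primrec.snd)
    have j2 : Primrec fun x : ℕ × ℕ => x.2.unpair.2 :=
      Primrec.snd.comp (Primrec.unpair.comp Primrec.snd)
    refine PrimrecPred.and (pV.comp j1 j2) (PrimrecPred.and (pT.comp j1 Primrec.fst) ?_)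
    exact Primrec.eq.comp (pev.comp (pB.comp (pTv.comp Primrec.fst j1)) j2) Primrec.fst
  have hblu : ∀ k j j', bl k j → bl k j' → j = j' := by
    intro k j j' h h'
    rw [hbl1] at h h'
    obtain ⟨e1, e2⟩ := hVu _ _ _ _ h.1 h'.1 (h.2.trans h'.2.symm)
    rw [← Nat.pair_unpair j, ← Nat.pair_unpair j', e1, e2]
  have hblb : ∀ k j, bl k j → j ≤ (k + 1) * (k + 1) := by
    intro k j h
    rw [hbl1] at h
    have h1 := hVge _ _ h.1
    have h2 := hnn1 j.unpair.1
    have h3 := hTe j.unpair.1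
    have h4 : ¬ T j.unpair.1 ≤ j.unpair.2 := by
      have := h.1
      rw [hV] at this
      exact this.1
    have h5 := Nat.pair_lt_max_add_one_sq j.unpair.1 j.unpair.2
    rw [Nat.pair_unpair] at h5
    have h6 : max j.unpair.1 j.unpair.2 ≤ k := max_le (by omega) (by omega)
    have h7 : (max j.unpair.1 j.unpair.2 + 1) ^ 2 ≤ (k + 1) ^ 2 := Nat.pow_le_pow_left (by omega) 2
    rw [pow_two (k + 1)] at h7
    omega
  obtain ⟨cj, hcj⟩ : ∃ cj : ℕ → ℕ, cj = fun k => Nat.findGreatest (bl k) ((k + 1) * (k + 1)) :=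
    ⟨_, rfl⟩
  have hcj1 : ∀ k j, bl k j → cj k = j := by
    intro k j h
    have h1 := Nat.findGreatest_spec (P := bl k) (hblb k j h) h
    rw [hcj]
    exact hblu k _ _ h1 h
  have pcj : Primrec cj := by
    rw [hcj]
    exact Primrec.nat_findGreatest (f := fun k : ℕ => (k + 1) * (k + 1)) (p := bl)
      (Primrec.nat_mul.comp Primrec.succ Primrec.succ) pbl
  obtain ⟨D, hD⟩ : ∃ D : ℕ → Prop, D = fun a => (a % 2 = 0 ∧ ¬ bl (a / 2) (cj (a / 2))) ∨
    (a % 2 = 1 ∧ V (a / 2).unpair.1 (a / 2).unpair.2) := ⟨_, rfl⟩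
  obtain ⟨val, hval⟩ : ∃ val : ℕ → ℕ, val = fun a => if a % 2 = 0 then a / 2 else
    ev (nn (a / 2).unpair.1) (a / 2).unpair.2 := ⟨_, rfl⟩
  obtain ⟨c, hc⟩ : ∃ c : ℕ → ℕ, c = fun k => if bl k (cj k) then 2 * cj k + 1 else 2 * k :=
    ⟨_, rfl⟩
  obtain ⟨name, hname⟩ : ∃ name : ℕ → ℕ → ℕ, name = fun e u => if Cst u then c (ev 1 u) else
    if T e ≤ nm u then c (ev (B (Tv u e)) u) else 2 * Nat.pair e (nm u) + 1 := ⟨_, rfl⟩
  have pd2 : Primrec fun a : ℕ => a / 2 := Primrec.nat_div.comp Primrec.id (Primrec.const 2)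
  have pm2 : Primrec fun a : ℕ => a % 2 := Primrec.nat_mod.comp Primrec.id (Primrec.const 2)
  have pD : PrimrecPred D := by
    rw [hD]
    refine PrimrecPred.or (PrimrecPred.and (Primrec.eq.comp pm2 (Primrec.const 0))
      (PrimrecPred.not (pbl.comp pd2 (pcj.comp pd2)))) (PrimrecPred.and
        (Primrec.eq.comp pm2 (Primrec.const 1)) (pV.comp (Primrec.fst.comp (Primrec.unpair.comp pd2))
          (Primrec.snd.comp (Primrec.unpair.comp pd2))))
  have pc : Primrec c := by
    rw [hc]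
    exact Primrec.ite (pbl.comp Primrec.id pcj) (Primrec.succ.comp (Primrec.nat_mul.comp
      (Primrec.const 2) pcj)) (Primrec.nat_mul.comp (Primrec.const 2) Primrec.id)
  have pname : Primrec₂ name := by
    rw [hname]
    refine Primrec.ite (c := fun x : ℕ × ℕ => Cst x.2) (pCst.comp Primrec.snd)
      (pc.comp (pev.comp (Primrec.const 1) Primrec.snd)) ?_
    refine Primrec.ite (c := fun x : ℕ × ℕ => T x.1 ≤ nm x.2)
      (pT.comp Primrec.fst (pnm.comp Primrec.snd)) ?_ ?_
    · exact pc.comp (pev.comp (pB.comp (pTv.comp Primrec.snd Primrec.fst)) Primrec.snd)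
    · exact Primrec.succ.comp (Primrec.nat_mul.comp (Primrec.const 2)
        (Primrec₂.natPair.comp Primrec.fst (pnm.comp Primrec.snd)))
  have hcD : ∀ k, D (c k) ∧ val (c k) = k := by
    intro k
    rw [hc, hD, hval]
    by_cases h : bl k (cj k)
    · simp only [h, if_true]
      have e1 : (2 * cj k + 1) % 2 = 1 := by omega
      have e2 : (2 * cj k + 1) / 2 = cj k := by omega
      rw [e1, e2]
      have h' := (hbl1 _ _).1 h
      refine ⟨Or.inr ⟨rfl, h'.1⟩, ?_⟩
      rw [if_neg (by norm_num)]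
      exact h'.2
    · simp only [h, if_false]
      have e1 : (2 * k) % 2 = 0 := by omega
      have e2 : (2 * k) / 2 = k := by omega
      rw [e1, e2]
      exact ⟨Or.inl ⟨rfl, h⟩, by rw [if_pos rfl]⟩
  refine ⟨T, nn, D, val, c, name, pD, pc, pname, hcD, ?_, ?_, ?_, fun e => by
    have := hnn1 e; omega, hT2⟩
  · intro a b ha hb hab
    rw [hD] at ha hb
    rw [hval] at hab
    simp only at hab
    rcases ha with ⟨a1, a2⟩ | ⟨a1, a2⟩
    · rw [if_pos a1] at hab
      rcases hb with ⟨b1, b2⟩ | ⟨b1, b2⟩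
      · rw [if_pos b1] at hab
        omega
      · rw [if_neg (by omega)] at hab
        exfalso
        have h1 : bl (a / 2) (b / 2) := (hbl1 _ _).2 ⟨b2, hab.symm⟩
        rw [hcj1 _ _ h1] at a2
        exact a2 h1
    · rw [if_neg (by omega)] at hab
      rcases hb with ⟨b1, b2⟩ | ⟨b1, b2⟩
      · rw [if_pos b1] at hab
        exfalso
        have h1 : bl (b / 2) (a / 2) := (hbl1 _ _).2 ⟨a2, hab⟩
        rw [hcj1 _ _ h1] at b2
        exact b2 h1
      · rw [if_neg (by omega)] at hab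
        have h1 : bl (ev (nn (b / 2).unpair.1) (b / 2).unpair.2) (a / 2) := (hbl1 _ _).2 ⟨a2, hab⟩
        have h2 : bl (ev (nn (b / 2).unpair.1) (b / 2).unpair.2) (b / 2) := (hbl1 _ _).2 ⟨b2, rfl⟩
        have := hblu _ _ _ h1 h2
        omega
  · intro e u
    obtain ⟨n1, n2, n3⟩ := hnm1 u
    have hn0 : 1 ≤ nn e := by have := hnn1 e; omega
    rw [hname]
    by_cases h : Cst u
    · simp only [h, if_true]
      refine ⟨(hcD _).1, ?_⟩
      rw [(hcD _).2]
      exact ((hCst1 u).1 h _ hn0).symm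
    · simp only [h, if_false]
      by_cases h2 : T e ≤ nm u
      · simp only [h2, if_true]
        refine ⟨(hcD _).1, ?_⟩
        rw [(hcD _).2, hTv, min_eq_left (h2.trans n1), hnn]
      · simp only [h2, if_false]
        have hVn : V e (nm u) := by
          rw [hV]
          refine ⟨h2, ?_, ?_⟩
          · intro h3
            apply h
            rw [hCst1] at h3 ⊢
            intro n hn
            rw [← n2 n hn, ← n2 1 (le_refl 1)]
            exact h3 n hn
          · intro t' ht' h3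
            exact n3 t' ht' (h3.trans n2)
        have e1 : (2 * Nat.pair e (nm u) + 1) % 2 = 1 := by omega
        have e2 : (2 * Nat.pair e (nm u) + 1) / 2 = Nat.pair e (nm u) := by omega
        rw [hD, hval]
        simp only [e1, e2, Nat.unpair_pair]
        refine ⟨Or.inr ⟨trivial, hVn⟩, ?_⟩
        rw [if_neg (by norm_num)]
        exact n2 _ hn0
  · intro a ha
    rw [hval]
    rw [hD] at ha
    rcases ha with ⟨a1, _⟩ | ⟨a1, _⟩
    · left
      exact ⟨a1, by simp only; rw [if_pos a1]⟩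
    · right
      exact ⟨a1, by simp only; rw [if_neg (by omega)]⟩

end Pool.Agent.Q205.LV
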