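import Pool.Agent.Q222.LV.TRM
import Pool.Agent.Q208.LV.Zb
import Pool.Agent.Q205.LV.Pr

/-! LVTRM: from the jobs of helper222 and helper208. -/

set_option autoImplicit false

namespace Pool.Agent.Q205.LV

theorem trm : TRMStm :=
  Pool.Agent.Q222.LV.TRMproof Pool.Agent.Q208.LV.alg Pool.Agent.Q208.LV.der Pool.Agent.Q208.LV.zb evs

end Pool.Agent.Q205.LV
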