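import Pool.Agent.Q205.LV.Stm

/-! LVT. -/

set_option autoImplicit false

namespace Pool.Agent.Q205.LV

open Nat.Partrec (Code)
open Nat.Partrec.Code (evaln eval)

theorem t_step (H : ℕ → ℕ) (T₀ : ℕ → ℕ) (μ : ℕ → ℕ → ℕ) (hμ : ∀ t e, μ t e = min (T₀ e) t)
    (T : ℕ → ℕ) (hT0 : T 0 = T₀ 0 + 1) (hT1 : ∀ e, T (e + 1) = T e + H (T e) + 1 + T₀ (e + 1))
    (t e : ℕ) : (Nat.rec (μ t 0 + 1) (fun k s => if s ≤ t then
      min (s + H s + 1 + μ (t + 1) (k + 1)) (t + 1) else t + 1) e : ℕ) = min (T e) (t + 1) := by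
  induction e with
  | zero =>
    show μ t 0 + 1 = min (T 0) (t + 1)
    rw [hT0, hμ]
    omega
  | succ e ih =>
    simp only
    rw [ih]
    by_cases h : T e ≤ t
    · have e1 : min (T e) (t + 1) = T e := by omega
      rw [e1, if_pos h, hμ, hT1]
      omega
    · have e1 : min (T e) (t + 1) = t + 1 := by omega
      rw [e1, if_neg (by omega), hT1]
      omega

theorem tt : TStm := by
  intro H hH
  have hack : Computable fun n : ℕ => ack n n := computable₂_ack.comp Computable.id Computable.id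
  obtain ⟨p, hp⟩ := Code.exists_code.1 (Partrec.nat_iff.1 (hack.partrec : Partrec _))
  have hp' : ∀ e, ack e e ∈ eval p e := by
    intro e
    rw [hp]
    simp
  have hR : ∀ e, ∃ t, (evaln t p e).isSome := by
    intro e
    obtain ⟨k, hk⟩ := Nat.Partrec.Code.evaln_complete.1 (hp' e)
    exact ⟨k, by rw [Option.mem_def.1 hk]; rfl⟩
  classical
  obtain ⟨T₀, hT₀⟩ : ∃ T₀ : ℕ → ℕ, ∀ e t, T₀ e ≤ t ↔ (evaln t p e).isSome = true := by
    refine ⟨fun e => Nat.find (hR e), fun e t => ?_⟩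
    constructor
    · intro h
      have h1 := Nat.find_spec (hR e)
      obtain ⟨x, hx⟩ := Option.isSome_iff_exists.1 h1
      have h2 := Nat.Partrec.Code.evaln_mono h (Option.mem_def.2 hx)
      rw [Option.mem_def.1 h2]
      rfl
    · intro h
      exact Nat.find_min' (hR e) h
  have hRp : PrimrecRel fun e t : ℕ => T₀ e ≤ t := by
    have h1 : Primrec fun x : ℕ × ℕ => (evaln x.2 p x.1).isSome :=
      Primrec.option_isSome.comp (Nat.Partrec.Code.primrec_evaln.comp
        ((Primrec.snd.pair (Primrec.const p)).pair Primrec.fst))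
    refine (Primrec.primrecPred (p := fun x : ℕ × ℕ => ((evaln x.2 p x.1).isSome = true)) ?_).of_eq
      fun x => (hT₀ x.1 x.2).symm
    exact h1.of_eq fun x => by simp
  obtain ⟨μ, hμd⟩ : ∃ μ : ℕ → ℕ → ℕ, μ = fun t e =>
      Nat.findGreatest (fun s => s = 0 ∨ ¬ T₀ e ≤ s - 1) t := ⟨_, rfl⟩
  have hμ : ∀ t e, μ t e = min (T₀ e) t := by
    intro t e
    rw [hμd]
    simp only
    rw [Nat.findGreatest_eq_iff]
    refine ⟨min_le_right _ _, fun h => ?_, fun k hk1 hk2 hk3 => ?_⟩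
    · by_cases h0 : min (T₀ e) t = 0
      · exact Or.inl h0
      · right
        omega
    · omega
  have hμp : Primrec₂ μ := by
    rw [hμd]
    have h1 : PrimrecRel fun (x : ℕ × ℕ) (s : ℕ) => s = 0 ∨ ¬ T₀ x.2 ≤ s - 1 := by
      refine PrimrecPred.or (Primrec.eq.comp Primrec.snd (Primrec.const 0))
        (PrimrecPred.not (hRp.comp (Primrec.snd.comp Primrec.fst) (Primrec.pred.comp Primrec.snd)))
    exact Primrec.nat_findGreatest (f := fun x : ℕ × ℕ => x.1) Primrec.fst h1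
  obtain ⟨T, hT0, hT1⟩ : ∃ T : ℕ → ℕ, T 0 = T₀ 0 + 1 ∧
      ∀ e, T (e + 1) = T e + H (T e) + 1 + T₀ (e + 1) :=
    ⟨fun e => Nat.rec (T₀ 0 + 1) (fun k s => s + H s + 1 + T₀ (k + 1)) e, rfl, fun _ => rfl⟩
  refine ⟨T, ?_, by omega, fun e => by rw [hT1]; omega, fun g hg => ?_⟩
  · have hσ : Primrec fun x : ℕ × ℕ => (Nat.rec (μ x.2 0 + 1) (fun k s => if s ≤ x.2 then
        min (s + H s + 1 + μ (x.2 + 1) (k + 1)) (x.2 + 1) else x.2 + 1) x.1 : ℕ) := by
      have hstep : Primrec₂ fun (x : ℕ × ℕ) (z : ℕ × ℕ) => if z.2 ≤ x.2 then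
          min (z.2 + H z.2 + 1 + μ (x.2 + 1) (z.1 + 1)) (x.2 + 1) else x.2 + 1 := by
        have a : Primrec fun y : (ℕ × ℕ) × (ℕ × ℕ) => y.1.2 := Primrec.snd.comp Primrec.fst
        have b : Primrec fun y : (ℕ × ℕ) × (ℕ × ℕ) => y.2.2 := Primrec.snd.comp Primrec.snd
        have c : Primrec fun y : (ℕ × ℕ) × (ℕ × ℕ) => y.2.1 := Primrec.fst.comp Primrec.snd
        refine Primrec.ite (c := fun y : (ℕ × ℕ) × (ℕ × ℕ) => y.2.2 ≤ y.1.2)
          (Primrec.nat_le.comp b a) ?_ (Primrec.succ.comp a)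
        refine Primrec.nat_min.comp ?_ (Primrec.succ.comp a)
        exact Primrec.nat_add.comp (Primrec.succ.comp (Primrec.nat_add.comp b (hH.comp b)))
          (hμp.comp (Primrec.succ.comp a) (Primrec.succ.comp c))
      exact Primrec.nat_rec' (f := fun x : ℕ × ℕ => x.1) (g := fun x => μ x.2 0 + 1)
        (h := fun x z => if z.2 ≤ x.2 then
          min (z.2 + H z.2 + 1 + μ (x.2 + 1) (z.1 + 1)) (x.2 + 1) else x.2 + 1) Primrec.fst
        (Primrec.succ.comp (hμp.comp Primrec.snd (Primrec.const 0))) hstep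
    refine (Primrec.nat_le.comp hσ Primrec.snd).of_eq fun x => ?_
    rw [t_step H T₀ μ hμ T hT0 hT1]
    omega
  · by_contra hcon
    push Not at hcon
    apply not_primrec_ack_self
    have hge : ∀ e, T₀ e ≤ g e := by
      intro e
      refine le_trans ?_ (hcon e)
      cases e with
      | zero => omega
      | succ e => rw [hT1]; omega
    have h1 : Primrec fun e : ℕ => (evaln (g e) p e).getD 0 :=
      Primrec.option_getD.comp (Nat.Partrec.Code.primrec_evaln.comp
        ((hg.pair (Primrec.const p)).pair Primrec.id)) (Primrec.const 0)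
    refine h1.of_eq fun e => ?_
    obtain ⟨x, hx⟩ := Option.isSome_iff_exists.1 ((hT₀ e (g e)).1 (hge e))
    have h2 := Nat.Partrec.Code.evaln_sound (Option.mem_def.2 hx)
    rw [hx, Option.getD_some]
    exact Part.mem_unique h2 (hp' e)

end Pool.Agent.Q205.LV
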